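import Pool.Agent.R759.HCPair

/-!
Alternating cycles: `σ` runs once around a union of cosets, alternately by elements of `L` and by
elements of `R`; such cycles survive the addition of generators centralising (or inverting) all
of `L`.
-/

namespace Pool.Agent.E8helper30.HC

open Pool.Agent.R759.HC

attribute [local instance] Classical.propDecidable

set_option linter.unusedSectionVars false

variable {G : Type*} [Group G]

/-- `σ` runs once around `U`, alternately by elements of `L` (from the points of `P`) and by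
elements of `R` (from the other points). -/
structure AltOn (L R U : Set G) (σ : Equiv.Perm G) (P : Set G) : Prop where
  cyc : CycOn (L ∪ R) U σ
  alt : ∀ x ∈ U, (σ x ∈ P ↔ x ∉ P)
  left : ∀ x ∈ U, x ∈ P → x⁻¹ * σ x ∈ L
  right : ∀ x ∈ U, x ∉ P → x⁻¹ * σ x ∈ R

theorem inv_maps {A U : Set G} {σ : Equiv.Perm G} (h : CycOn A U σ) : ∀ x ∈ U, σ⁻¹ x ∈ U := by
  intro x hx
  by_contra hn
  have := h.fix _ hn
  rw [pinv1] at this
  rw [← this] at hn
  exact hn hx

theorem AltOn.swap {L R U : Set G} {σ : Equiv.Perm G} {P : Set G} (h : AltOn L R U σ P) :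
    AltOn R L U σ Pᶜ := by
  refine ⟨?_, ?_, ?_, ?_⟩
  · have := h.cyc
    rwa [Set.union_comm] at this
  · intro x hx
    have := h.alt x hx
    simp only [Set.mem_compl_iff]
    tauto
  · intro x hx hP
    exact h.right x hx hP
  · intro x hx hP
    refine h.left x hx ?_
    simpa using hP

theorem AltOn.mono {L R L' U : Set G} {σ : Equiv.Perm G} {P : Set G} (h : AltOn L R U σ P)
    (hL : L ⊆ L') : AltOn L' R U σ P :=
  ⟨⟨h.cyc.fix, h.cyc.maps, fun x hx => Set.union_subset_union_left R hL (h.cyc.step x hx),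
    h.cyc.cyc⟩, h.alt, fun x hx hP => hL (h.left x hx hP), h.right⟩

theorem AltOn.inv {L R U : Set G} {σ : Equiv.Perm G} {P : Set G} (hL : ∀ x ∈ L, x⁻¹ ∈ L)
    (hR : ∀ x ∈ R, x⁻¹ ∈ R) (h : AltOn L R U σ P) : AltOn L R U σ⁻¹ Pᶜ := by
  have hLR : ∀ x ∈ L ∪ R, x⁻¹ ∈ L ∪ R := by
    rintro x (hx | hx)
    · exact Or.inl (hL x hx)
    · exact Or.inr (hR x hx)
  have hm := inv_maps h.cyc
  have ha : ∀ x ∈ U, (x ∈ P ↔ σ⁻¹ x ∉ P) := by
    intro x hx
    have := h.alt _ (hm x hx)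
    rwa [pinv1] at this
  refine ⟨h.cyc.inv hLR, ?_, ?_, ?_⟩
  · intro x hx
    have := ha x hx
    simp only [Set.mem_compl_iff]
    tauto
  · intro x hx hP
    have h1 : σ⁻¹ x ∈ P := by
      by_contra hn
      exact hP ((ha x hx).2 hn)
    have h2 := hL _ (h.left _ (hm x hx) h1)
    rw [pinv1] at h2
    rwa [mul_inv_rev, inv_inv] at h2
  · intro x hx hP
    have h1 : σ⁻¹ x ∉ P := by
      apply (ha x hx).1
      simpa using hP
    have h2 := hR _ (h.right _ (hm x hx) h1)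
    rw [pinv1] at h2
    rwa [mul_inv_rev, inv_inv] at h2

theorem conj_ap (b : G) (σ : Equiv.Perm G) (x : G) :
    (Equiv.mulLeft b * σ * (Equiv.mulLeft b)⁻¹) x = b * σ (b⁻¹ * x) := by
  simp [Equiv.Perm.mul_apply]

theorem conj_inv_ap (b : G) (σ : Equiv.Perm G) (x : G) :
    (Equiv.mulLeft b * σ * (Equiv.mulLeft b)⁻¹)⁻¹ x = b * σ⁻¹ (b⁻¹ * x) := by
  rw [Equiv.Perm.inv_eq_iff_eq, conj_ap, inv_mul_cancel_left, pinv1, mul_inv_cancel_left]

theorem AltOn.translate {L R U : Set G} {σ : Equiv.Perm G} {P : Set G} (h : AltOn L R U σ P)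
    (b : G) : AltOn L R {x | b⁻¹ * x ∈ U} (Equiv.mulLeft b * σ * (Equiv.mulLeft b)⁻¹)
      {x | b⁻¹ * x ∈ P} := by
  refine ⟨h.cyc.translate b, ?_, ?_, ?_⟩
  · intro x hx
    rw [conj_ap]
    change b⁻¹ * (b * σ (b⁻¹ * x)) ∈ P ↔ b⁻¹ * x ∉ P
    rw [inv_mul_cancel_left]
    exact h.alt _ hx
  · intro x hx hP
    rw [conj_ap]
    have := h.left _ hx hP
    rwa [mul_inv_rev, inv_inv, mul_assoc] at this
  · intro x hx hP
    rw [conj_ap]
    have := h.right _ hx hP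
    rwa [mul_inv_rev, inv_inv, mul_assoc] at this

/-- the number of points `x` of `U` at which the edge `{x, x s}` is not used by `σ` -/
noncomputable def lost (σ : Equiv.Perm G) (U : Set G) (s : G) : ℕ :=
  {x | x ∈ U ∧ σ x ≠ x * s ∧ σ (x * s) ≠ x}.ncard

theorem lost_inv (σ : Equiv.Perm G) (U : Set G) (s : G) : lost σ⁻¹ U s = lost σ U s := by
  unfold lost
  congr 1
  ext x
  simp only [Set.mem_ofPred_eq, ne_eq, Equiv.Perm.inv_eq_iff_eq]
  constructor
  · rintro ⟨h1, h2, h3⟩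
    exact ⟨h1, fun h => h3 h.symm, fun h => h2 h.symm⟩
  · rintro ⟨h1, h2, h3⟩
    exact ⟨h1, fun h => h3 h.symm, fun h => h2 h.symm⟩

theorem lost_translate (σ : Equiv.Perm G) (U : Set G) (s b : G) :
    lost (Equiv.mulLeft b * σ * (Equiv.mulLeft b)⁻¹) {x | b⁻¹ * x ∈ U} s = lost σ U s := by
  unfold lost
  have e : {x | x ∈ {x | b⁻¹ * x ∈ U} ∧ (Equiv.mulLeft b * σ * (Equiv.mulLeft b)⁻¹) x ≠ x * s ∧
      (Equiv.mulLeft b * σ * (Equiv.mulLeft b)⁻¹) (x * s) ≠ x} =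
      (fun x => b * x) '' {x | x ∈ U ∧ σ x ≠ x * s ∧ σ (x * s) ≠ x} := by
    ext x
    constructor
    · rintro ⟨h1, h2, h3⟩
      rw [conj_ap] at h2 h3
      refine ⟨b⁻¹ * x, ⟨h1, ?_, ?_⟩, by simp⟩
      · intro h
        apply h2
        rw [h]; group
      · intro h
        apply h3
        rw [← mul_assoc, h]; group
    · rintro ⟨y, ⟨h1, h2, h3⟩, rfl⟩
      refine ⟨?_, ?_, ?_⟩
      · change b⁻¹ * (b * y) ∈ U
        rwa [inv_mul_cancel_left]
      · rw [conj_ap]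
        intro h
        apply h2
        simp only [inv_mul_cancel_left, mul_assoc] at h
        exact mul_left_cancel h
      · rw [conj_ap]
        intro h
        apply h3
        simp only [mul_assoc, inv_mul_cancel_left] at h
        exact mul_left_cancel h
  rw [e]
  exact Set.ncard_image_of_injective _ (mul_right_injective b)

/-- the other end of the `L`-edge at `x` -/
noncomputable def mate (σ : Equiv.Perm G) (P : Set G) (x : G) : G := if x ∈ P then σ x else σ⁻¹ x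

theorem mate_inv (σ : Equiv.Perm G) (P : Set G) (x : G) : mate σ⁻¹ Pᶜ x = mate σ P x := by
  unfold mate
  by_cases h : x ∈ P
  · simp [h]
  · simp [h]

theorem mate_translate (σ : Equiv.Perm G) (P : Set G) (b x : G) :
    mate (Equiv.mulLeft b * σ * (Equiv.mulLeft b)⁻¹) {x | b⁻¹ * x ∈ P} x =
      b * mate σ P (b⁻¹ * x) := by
  unfold mate
  by_cases h : b⁻¹ * x ∈ P
  · have h' : x ∈ {x | b⁻¹ * x ∈ P} := h
    rw [if_pos h', if_pos h, conj_ap]
  · have h' : x ∉ {x | b⁻¹ * x ∈ P} := h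
    rw [if_neg h', if_neg h, conj_inv_ap]

/-- the labels of the `L`-edges, in both directions -/
def labels (σ : Equiv.Perm G) (P U : Set G) : Set G :=
  {s | ∃ h ∈ U, h ∈ P ∧ (h⁻¹ * σ h = s ∨ (h⁻¹ * σ h)⁻¹ = s)}

theorem labels_symm {σ : Equiv.Perm G} {P U : Set G} : ∀ s ∈ labels σ P U, s⁻¹ ∈ labels σ P U := by
  rintro s ⟨h, hU, hP, rfl | rfl⟩
  · exact ⟨h, hU, hP, Or.inr rfl⟩
  · exact ⟨h, hU, hP, Or.inl (by rw [inv_inv])⟩

theorem labels_sub {L R U : Set G} {σ : Equiv.Perm G} {P : Set G} (hL : ∀ x ∈ L, x⁻¹ ∈ L)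
    (h : AltOn L R U σ P) : labels σ P U ⊆ L := by
  rintro s ⟨g, hU, hP, rfl | rfl⟩
  · exact h.left g hU hP
  · exact hL _ (h.left g hU hP)

theorem mate_label {L R U : Set G} {σ : Equiv.Perm G} {P : Set G}
    (h : AltOn L R U σ P) {x : G} (hx : x ∈ U) : x⁻¹ * mate σ P x ∈ labels σ P U := by
  unfold mate
  by_cases hP : x ∈ P
  · rw [if_pos hP]
    exact ⟨x, hx, hP, Or.inl rfl⟩
  · rw [if_neg hP]
    have hm := inv_maps h.cyc x hx
    have h1 : σ⁻¹ x ∈ P := by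
      by_contra hn
      have := (h.alt _ hm).2 hn
      rw [pinv1] at this
      exact hP this
    refine ⟨σ⁻¹ x, hm, h1, Or.inr ?_⟩
    rw [pinv1, mul_inv_rev, inv_inv]

/-- a translate of the alternating cycle of `H` (possibly reversed) through a given directed
`L`-edge -/
theorem place {L R : Set G} {H : Subgroup G} {σ : Equiv.Perm G} {P : Set G}
    (hL : ∀ x ∈ L, x⁻¹ ∈ L) (hR : ∀ x ∈ R, x⁻¹ ∈ R) (h : AltOn L R (H : Set G) σ P)
    {t : G} (ht : t ∈ labels σ P (H : Set G)) (y : G) :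
    ∃ (σ2 : Equiv.Perm G) (P2 : Set G), AltOn L R {x | y⁻¹ * x ∈ H} σ2 P2 ∧ y ∈ P2 ∧ σ2 y = y * t ∧
      (∀ w, y⁻¹ * w ∈ H → w⁻¹ * mate σ2 P2 w ∈ labels σ P (H : Set G)) ∧
      ∀ s, lost σ2 {x | y⁻¹ * x ∈ H} s = lost σ (H : Set G) s := by
  have key : ∀ (σ' : Equiv.Perm G) (P' : Set G), AltOn L R (H : Set G) σ' P' →
      (∀ x, mate σ' P' x = mate σ P x) → (∀ s, lost σ' (H : Set G) s = lost σ (H : Set G) s) →
      ∀ g ∈ H, g ∈ P' → g⁻¹ * σ' g = t →
      ∃ (σ2 : Equiv.Perm G) (P2 : Set G), AltOn L R {x | y⁻¹ * x ∈ H} σ2 P2 ∧ y ∈ P2 ∧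
        σ2 y = y * t ∧ (∀ w, y⁻¹ * w ∈ H → w⁻¹ * mate σ2 P2 w ∈ labels σ P (H : Set G)) ∧
        ∀ s, lost σ2 {x | y⁻¹ * x ∈ H} s = lost σ (H : Set G) s := by
    intro σ' P' h' hmate hlost g hg hgP hgt
    have hset : {x | (y * g⁻¹)⁻¹ * x ∈ (H : Set G)} = {x | y⁻¹ * x ∈ H} := by
      ext x
      change (y * g⁻¹)⁻¹ * x ∈ H ↔ y⁻¹ * x ∈ H
      have e : (y * g⁻¹)⁻¹ * x = g * (y⁻¹ * x) := by group
      rw [e]
      exact Subgroup.mul_mem_cancel_left H hg
    have h2 := h'.translate (y * g⁻¹)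
    rw [hset] at h2
    refine ⟨_, _, h2, ?_, ?_, ?_, ?_⟩
    · change (y * g⁻¹)⁻¹ * y ∈ P'
      have e : (y * g⁻¹)⁻¹ * y = g := by group
      rw [e]; exact hgP
    · rw [conj_ap]
      have e : (y * g⁻¹)⁻¹ * y = g := by group
      rw [e, ← hgt]
      group
    · intro w hw
      rw [mate_translate, hmate]
      have hw' : (y * g⁻¹)⁻¹ * w ∈ (H : Set G) := by
        have : w ∈ {x | (y * g⁻¹)⁻¹ * x ∈ (H : Set G)} := by rw [hset]; exact hw
        exact this
      have h3 := mate_label h hw'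
      have e : ((y * g⁻¹)⁻¹ * w)⁻¹ * mate σ P ((y * g⁻¹)⁻¹ * w) =
          w⁻¹ * (y * g⁻¹ * mate σ P ((y * g⁻¹)⁻¹ * w)) := by group
      rwa [e] at h3
    · intro s
      have h3 := lost_translate σ' (H : Set G) s (y * g⁻¹)
      rw [hset] at h3
      rw [h3, hlost]
  obtain ⟨g, hg, hgP, hgt | hgt⟩ := ht
  · exact key σ P h (fun _ => rfl) (fun _ => rfl) g hg hgP hgt
  · refine key σ⁻¹ Pᶜ (h.inv hL hR) (fun x => mate_inv σ P x) (fun s => lost_inv σ _ s) (σ g)
      (h.cyc.maps g hg) ?_ ?_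
    · rw [Set.mem_compl_iff, h.alt g hg, not_not]
      exact hgP
    · rw [pinv2, ← hgt, mul_inv_rev, inv_inv]

variable [Finite G]

/-- how many edges are lost in a merging step -/
theorem lost_merge {A U1 U2 : Set G} {σ1 σ2 σ : Equiv.Perm G} (h1 : CycOn A U1 σ1)
    (h2 : CycOn A U2 σ2) {z y : G} (hz : z ∈ U1) (hy : y ∈ U2)
    (em1 : ∀ w ∈ U1, w ≠ z → σ w = σ1 w) (em2 : ∀ w ∈ U2, w ≠ y → σ w = σ2 w)
    {s : G} (hs1 : s ≠ 1) (hs2 : s * s = 1) :
    lost σ (U1 ∪ U2) s ≤ lost σ1 U1 s + lost σ2 U2 s + (if z⁻¹ * σ1 z = s then 2 else 0) +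
      (if y⁻¹ * σ2 y = s then 2 else 0) := by
  have key : ∀ (U : Set G) (τ : Equiv.Perm G) (u : G), CycOn A U τ → u ∈ U →
      (∀ w ∈ U, w ≠ u → σ w = τ w) →
      {x | x ∈ U ∧ σ x ≠ x * s ∧ σ (x * s) ≠ x}.ncard ≤
        lost τ U s + (if u⁻¹ * τ u = s then 2 else 0) := by
    intro U τ u hτ hu hag
    have hsub : {x | x ∈ U ∧ σ x ≠ x * s ∧ σ (x * s) ≠ x} ⊆
        {x | x ∈ U ∧ τ x ≠ x * s ∧ τ (x * s) ≠ x} ∪
          (if u⁻¹ * τ u = s then ({u, τ u} : Set G) else ∅) := by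
      rintro x ⟨hx, hx1, hx2⟩
      by_cases hl : τ x ≠ x * s ∧ τ (x * s) ≠ x
      · exact Or.inl ⟨hx, hl.1, hl.2⟩
      · right
        rw [not_and_or, not_not, not_not] at hl
        rcases hl with hl | hl
        · have hxu : x = u := by
            by_contra hne
            apply hx1
            rw [hag x hx hne, hl]
          subst hxu
          rw [if_pos (by rw [hl]; group)]
          exact Or.inl rfl
        · have hxs : x * s ∈ U := by
            by_contra hn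
            have := hτ.fix _ hn
            rw [hl] at this
            exact hs1 (mul_left_cancel (this.symm.trans (mul_one x).symm))
          have hxu : x * s = u := by
            by_contra hne
            apply hx2
            rw [hag _ hxs hne, hl]
          have hx' : x = u * s := by
            rw [← hxu, mul_assoc, hs2, mul_one]
          rw [hxu] at hl
          rw [if_pos (by rw [hl, hx']; group)]
          right
          exact hl.symm
    unfold lost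
    refine (Set.ncard_le_ncard hsub (Set.toFinite _)).trans
      ((Set.ncard_union_le _ _).trans ?_)
    apply Nat.add_le_add_left
    split_ifs
    · have h7 := Set.ncard_insert_le u ({τ u} : Set G)
      rw [Set.ncard_singleton] at h7
      exact h7
    · simp
  have hsplit : {x | x ∈ U1 ∪ U2 ∧ σ x ≠ x * s ∧ σ (x * s) ≠ x} =
      {x | x ∈ U1 ∧ σ x ≠ x * s ∧ σ (x * s) ≠ x} ∪ {x | x ∈ U2 ∧ σ x ≠ x * s ∧ σ (x * s) ≠ x} := by
    ext x
    simp only [Set.mem_ofPred_eq, Set.mem_union]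
    tauto
  have k1 := key U1 σ1 z h1 hz em1
  have k2 := key U2 σ2 y h2 hy em2
  have h3 : lost σ (U1 ∪ U2) s ≤ {x | x ∈ U1 ∧ σ x ≠ x * s ∧ σ (x * s) ≠ x}.ncard +
      {x | x ∈ U2 ∧ σ x ≠ x * s ∧ σ (x * s) ≠ x}.ncard := by
    unfold lost
    rw [hsplit]
    exact Set.ncard_union_le _ _
  omega

/-- merging two alternating cycles at `L`-edges -/
theorem AltOn.merge {L R U1 U2 : Set G} {σ1 σ2 : Equiv.Perm G} {P1 P2 : Set G}
    (h1 : AltOn L R U1 σ1 P1) (h2 : AltOn L R U2 σ2 P2) (hd : ∀ z, z ∈ U1 → z ∉ U2)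
    {z y : G} (hz : z ∈ U1) (hzP : z ∈ P1) (hy : y ∈ U2) (hyP : y ∈ P2)
    (s1 : z⁻¹ * σ2 y ∈ L) (s2 : y⁻¹ * σ1 z ∈ L) :
    ∃ (σ : Equiv.Perm G) (P : Set G), AltOn L R (U1 ∪ U2) σ P ∧
      (∀ w ∈ U1, w ≠ z → w ≠ σ1 z → mate σ P w = mate σ1 P1 w) ∧
      (∀ w ∈ U2, w ≠ y → w ≠ σ2 y → mate σ P w = mate σ2 P2 w) ∧
      ∀ s, s ≠ 1 → s * s = 1 → lost σ (U1 ∪ U2) s ≤ lost σ1 U1 s + lost σ2 U2 s +
        (if z⁻¹ * σ1 z = s then 2 else 0) + (if y⁻¹ * σ2 y = s then 2 else 0) := by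
  have hd' : ∀ w, w ∈ U2 → w ∉ U1 := fun w h h' => hd w h' h
  obtain ⟨hm, em1, em2⟩ := h1.cyc.merge h2.cyc hd hz hy rfl (Or.inl s1) (Or.inl s2)
  set σ := σ1 * σ2 * Equiv.swap z y with hσ
  have e0 : ∀ w, σ w = σ1 (σ2 (Equiv.swap z y w)) := fun w => rfl
  have ez : σ z = σ2 y := by
    rw [e0, Equiv.swap_apply_left, h1.cyc.fix _ (hd' _ (h2.cyc.maps y hy))]
  have ey : σ y = σ1 z := by
    rw [e0, Equiv.swap_apply_right, h2.cyc.fix _ (hd _ hz)]
  let P : Set G := {x | (x ∈ U1 ∧ x ∈ P1) ∨ (x ∈ U2 ∧ x ∈ P2)}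
  have hP1 : ∀ x ∈ U1, (x ∈ P ↔ x ∈ P1) := by
    intro x hx
    constructor
    · rintro (h | h)
      · exact h.2
      · exact absurd h.1 (hd x hx)
    · exact fun h => Or.inl ⟨hx, h⟩
  have hP2 : ∀ x ∈ U2, (x ∈ P ↔ x ∈ P2) := by
    intro x hx
    constructor
    · rintro (h | h)
      · exact absurd h.1 (hd' x hx)
      · exact h.2
    · exact fun h => Or.inr ⟨hx, h⟩
  refine ⟨σ, P, ⟨hm, ?_, ?_, ?_⟩, ?_, ?_, fun s hs1 hs2 =>
    lost_merge h1.cyc h2.cyc hz hy em1 em2 hs1 hs2⟩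
  · rintro x (hx | hx)
    · rw [hP1 x hx]
      by_cases h : x = z
      · subst h
        rw [ez, hP2 _ (h2.cyc.maps y hy), h2.alt y hy]
        simp [hyP, hzP]
      · rw [em1 x hx h, hP1 _ (h1.cyc.maps x hx)]
        exact h1.alt x hx
    · rw [hP2 x hx]
      by_cases h : x = y
      · subst h
        rw [ey, hP1 _ (h1.cyc.maps z hz), h1.alt z hz]
        simp [hyP, hzP]
      · rw [em2 x hx h, hP2 _ (h2.cyc.maps x hx)]
        exact h2.alt x hx
  · rintro x (hx | hx) hP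
    · rw [hP1 x hx] at hP
      by_cases h : x = z
      · subst h
        rw [ez]; exact s1
      · rw [em1 x hx h]; exact h1.left x hx hP
    · rw [hP2 x hx] at hP
      by_cases h : x = y
      · subst h
        rw [ey]; exact s2
      · rw [em2 x hx h]; exact h2.left x hx hP
  · rintro x (hx | hx) hP
    · rw [hP1 x hx] at hP
      by_cases h : x = z
      · subst h
        exact absurd hzP hP
      · rw [em1 x hx h]; exact h1.right x hx hP
    · rw [hP2 x hx] at hP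
      by_cases h : x = y
      · subst h
        exact absurd hyP hP
      · rw [em2 x hx h]; exact h2.right x hx hP
  · intro w hw hwz hwσ
    unfold mate
    by_cases hwP : w ∈ P1
    · rw [if_pos ((hP1 w hw).2 hwP), if_pos hwP, em1 w hw hwz]
    · rw [if_neg (fun h => hwP ((hP1 w hw).1 h)), if_neg hwP, Equiv.Perm.inv_eq_iff_eq,
        em1 _ (inv_maps h1.cyc w hw) ?_, pinv1]
      intro h
      apply hwσ
      rw [← h, pinv1]
  · intro w hw hwy hwσ
    unfold mate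
    by_cases hwP : w ∈ P2
    · rw [if_pos ((hP2 w hw).2 hwP), if_pos hwP, em2 w hw hwy]
    · rw [if_neg (fun h => hwP ((hP2 w hw).1 h)), if_neg hwP, Equiv.Perm.inv_eq_iff_eq,
        em2 _ (inv_maps h2.cyc w hw) ?_, pinv1]
      intro h
      apply hwσ
      rw [← h, pinv1]

end Pool.Agent.E8helper30.HC
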