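import Pool.Agent.E8helper30.HC.Step

/-!
The alternating cycle of a dihedral group, and of the group generated by two sets of pairwise
commuting involutions.
-/

namespace Pool.Agent.E8helper30.HC

open Pool.Agent.R759.HC

attribute [local instance] Classical.propDecidable

set_option linter.unusedSectionVars false

variable {G : Type*} [Group G] [Finite G]

/-- the group generated by `L ∪ R` has an alternating cycle which loses few of the edges with
labels `a` and `b` -/
def AltSt (a b : G) (q : ℕ) (L R : Set G) : Prop :=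
  ∃ (σ : Equiv.Perm G) (P : Set G), AltOn L R (Subgroup.closure (L ∪ R) : Set G) σ P ∧
    (lost σ (Subgroup.closure (L ∪ R) : Set G) a +
      lost σ (Subgroup.closure (L ∪ R) : Set G) b + 4) * q ≤
        4 * (Subgroup.closure (L ∪ R) : Set G).ncard

theorem AltSt.swap {a b : G} {q : ℕ} {L R : Set G} (h : AltSt a b q L R) : AltSt a b q R L := by
  obtain ⟨σ, P, h1, h2⟩ := h
  rw [Set.union_comm] at h1 h2
  exact ⟨σ, Pᶜ, h1.swap, h2⟩

theorem altSt_base {a b : G} (ha1 : a ≠ 1) (hb1 : b ≠ 1) (hab : a ≠ b) (ha2 : a * a = 1)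
    (hb2 : b * b = 1) :
    AltSt a b (Nat.card (Subgroup.closure ({a, b} : Set G))) {a} {b} := by
  obtain ⟨τ, hτ, htr⟩ := cyc_dihedral (A := ({a} ∪ {b} : Set G)) (a := a) (b := b)
    (Or.inl rfl) (Or.inr rfl) ha1 hb1 hab ha2 hb2
  have hset : ({a, b} : Set G) = {a} ∪ {b} := rfl
  rw [hset] at hτ htr ⊢
  set D := Subgroup.closure ({a} ∪ {b} : Set G) with hD
  have tr : ∀ x ∈ D, ∀ s, (s = a ∨ s = b) → τ x = x * s ∨ τ (x * s) = x := by
    intro x hx s hs
    refine htr x s ?_ hs
    rw [eq_comm, QuotientGroup.eq]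
    simpa using hx
  have st : ∀ x ∈ D, τ x = x * a ∨ τ x = x * b := by
    intro x hx
    rcases hτ.step x hx with h | h
    · left
      rw [Set.mem_singleton_iff] at h
      rw [← h, mul_inv_cancel_left]
    · right
      rw [Set.mem_singleton_iff] at h
      rw [← h, mul_inv_cancel_left]
  have hne : ∀ x : G, x * a ≠ x * b := fun x h => hab (mul_left_cancel h)
  refine ⟨τ, {x | τ x = x * a}, ⟨hτ, ?_, ?_, ?_⟩, ?_⟩
  · intro x hx
    change τ (τ x) = τ x * a ↔ ¬ (τ x = x * a)
    constructor
    · intro h1 h2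
      rcases tr x hx b (Or.inr rfl) with h | h
      · exact hne x (h2.symm.trans h)
      · rw [h2, mul_assoc, ha2, mul_one] at h1
        exact hne x (τ.injective (h1.trans h.symm))
    · intro h1
      have h2 : τ x = x * b := (st x hx).resolve_left h1
      have h3 : τ (x * a) = x := (tr x hx a (Or.inl rfl)).resolve_left h1
      rcases st (τ x) (hτ.maps x hx) with h | h
      · exact h
      · rw [h2, mul_assoc x b b, hb2, mul_one] at h
        exact absurd (τ.injective (h3.trans h.symm)) (hne x)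
  · intro x hx hP
    change τ x = x * a at hP
    rw [hP, inv_mul_cancel_left]
    rfl
  · intro x hx hP
    have h2 : τ x = x * b := (st x hx).resolve_left hP
    rw [h2, inv_mul_cancel_left]
    rfl
  · have l0 : ∀ s, (s = a ∨ s = b) → lost τ (D : Set G) s = 0 := by
      intro s hs
      unfold lost
      rw [Set.ncard_eq_zero (Set.toFinite _), Set.eq_empty_iff_forall_notMem]
      rintro x ⟨hx, h1, h2⟩
      rcases tr x hx s hs with h | h
      · exact h1 h
      · exact h2 h
    rw [l0 a (Or.inl rfl), l0 b (Or.inr rfl)]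
    have e : (D : Set G).ncard = Nat.card D := rfl
    rw [e]

theorem AltSt.add {a b : G} (ha1 : a ≠ 1) (hb1 : b ≠ 1) (hab : a ≠ b) (ha2 : a * a = 1)
    (hb2 : b * b = 1) {q : ℕ} {L R : Set G} (hL : ∀ x ∈ L, x * x = 1) (hR : ∀ x ∈ R, x * x = 1)
    (h : AltSt a b q L R) {c : G} (hc2 : c * c = 1) (hc : ∀ s ∈ L, s * c = c * s) :
    AltSt a b q (L ∪ {c}) R := by
  obtain ⟨σ, P, h1, h2⟩ := h
  have hinv : ∀ {x : G}, x * x = 1 → x⁻¹ = x := fun h => inv_eq_of_mul_eq_one_left h
  have h3 := alt_step ha1 hb1 hab ha2 hb2 q (L := L) (R := R)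
    (fun x hx => by rw [hinv (hL x hx)]; exact hx) (fun x hx => by rw [hinv (hR x hx)]; exact hx)
    h1 h2 (c := c) (fun s hs => Or.inl (by rw [mul_assoc, hc s hs, inv_mul_cancel_left]))
    (Or.inl (by rw [hc2]; exact Subgroup.one_mem _))
  have e : ({c, c⁻¹} : Set G) = {c} := by
    rw [hinv hc2]; simp
  rw [e] at h3
  exact h3

/-- all elements of a set of pairwise commuting involutions can be added -/
theorem AltSt.addAll {a b : G} (ha1 : a ≠ 1) (hb1 : b ≠ 1) (hab : a ≠ b) (ha2 : a * a = 1)
    (hb2 : b * b = 1) {q : ℕ} {F R : Set G} (hF : ∀ x ∈ F, x * x = 1)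
    (hFc : ∀ x ∈ F, ∀ y ∈ F, x * y = y * x) (hR : ∀ x ∈ R, x * x = 1) {u : G} (hu : u ∈ F)
    (h : AltSt a b q {u} R) : AltSt a b q F R := by
  have key : ∀ E : Finset G, (E : Set G) ⊆ F → AltSt a b q ({u} ∪ (E : Set G)) R := by
    intro E
    induction E using Finset.induction_on with
    | empty => intro _; simpa using h
    | insert c E hcE ih =>
      intro hE
      have hE' : (E : Set G) ⊆ F := fun x hx => hE (by simp at hx ⊢; exact Or.inr hx)
      have hcF : c ∈ F := hE (by simp)
      have hsub : ({u} ∪ (E : Set G)) ⊆ F := by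
        rintro x (hx | hx)
        · rw [Set.mem_singleton_iff] at hx
          subst hx
          exact hu
        · exact hE' hx
      have h3 := AltSt.add ha1 hb1 hab ha2 hb2 (fun x hx => hF x (hsub hx)) hR (ih hE')
        (hF c hcF) (fun s hs => hFc s (hsub hs) c hcF)
      have e : ({u} ∪ (E : Set G)) ∪ {c} = {u} ∪ ((insert c E : Finset G) : Set G) := by
        ext x
        simp only [Set.mem_union, Set.mem_singleton_iff, Finset.coe_insert, Set.mem_insert_iff,
          Finset.mem_coe]
        tauto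
      rwa [e] at h3
  have h1 := key (Set.toFinite F).toFinset (by simp)
  have e : {u} ∪ ((Set.toFinite F).toFinset : Set G) = F := by
    ext x
    simp only [Set.Finite.coe_toFinset, Set.mem_union, Set.mem_singleton_iff]
    constructor
    · rintro (rfl | h)
      · exact hu
      · exact h
    · exact Or.inr
  rwa [e] at h1

/-- two sets of pairwise commuting involutions -/
theorem altSt_two {a b : G} (ha1 : a ≠ 1) (hb1 : b ≠ 1) (hab : a ≠ b) {L R : Set G}
    (hL : ∀ x ∈ L, x * x = 1) (hLc : ∀ x ∈ L, ∀ y ∈ L, x * y = y * x)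
    (hR : ∀ x ∈ R, x * x = 1) (hRc : ∀ x ∈ R, ∀ y ∈ R, x * y = y * x) (ha : a ∈ L) (hb : b ∈ R) :
    AltSt a b (Nat.card (Subgroup.closure ({a, b} : Set G))) L R := by
  have ha2 := hL a ha
  have hb2 := hR b hb
  have h0 := altSt_base ha1 hb1 hab ha2 hb2
  have h1 := h0.addAll ha1 hb1 hab ha2 hb2 hL hLc (by
    intro x hx
    rw [Set.mem_singleton_iff] at hx
    rw [hx]; exact hb2) ha
  exact (h1.swap.addAll ha1 hb1 hab ha2 hb2 hR hRc hL hb).swap

/-- with `R = {b}` no edge with label `b` is lost -/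
theorem lost_right {b : G} (hb2 : b * b = 1) {L U : Set G} {σ : Equiv.Perm G} {P : Set G}
    (h : AltOn L {b} U σ P) : lost σ U b = 0 := by
  unfold lost
  rw [Set.ncard_eq_zero (Set.toFinite _), Set.eq_empty_iff_forall_notMem]
  rintro x ⟨hx, h1, h2⟩
  have hxP : x ∈ P := by
    by_contra hn
    apply h1
    have := h.right x hx hn
    rw [Set.mem_singleton_iff] at this
    rw [← this, mul_inv_cancel_left]
  have hm := inv_maps h.cyc x hx
  have h3 : σ⁻¹ x ∉ P := by
    have := h.alt _ hm
    rw [pinv1] at this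
    exact this.1 hxP
  have h4 := h.right _ hm h3
  rw [Set.mem_singleton_iff, pinv1] at h4
  apply h2
  have h5 : x * b = σ⁻¹ x := by
    have h6 : x = σ⁻¹ x * b := by rw [← h4, mul_inv_cancel_left]
    calc x * b = σ⁻¹ x * b * b := by rw [← h6]
      _ = σ⁻¹ x := by rw [mul_assoc, hb2, mul_one]
  rw [h5, pinv1]

end Pool.Agent.E8helper30.HC
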