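import Pool.Agent.E8helper30.HC.Main

/-!
Problem MP_688fd0_co: closed listing sequences (Hamiltonian cycles) for generating sets in which
sufficiently many pairs of elements commute.
-/

namespace Pool.Agent.E8helper30.HC.CommutingTriples

open Pool.Agent.R759.HC Pool.Agent.E8helper30.HC

universe u

/-- `a_1, …, a_n ∈ A`, where `n = |G|`, have pairwise distinct partial products
`a_1, a_1 a_2, …, a_1 ⋯ a_n`, the last of which is `1`. -/
def ClosedListing {G : Type u} [Group G] (A : Set G) (a : Fin (Nat.card G) → G) : Prop :=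
  (∀ i, a i ∈ A) ∧
  Function.Injective (fun k : Fin (Nat.card G) => ((List.ofFn a).take (k.val + 1)).prod) ∧
  (List.ofFn a).prod = 1

/-- `A` is a nonempty set of elements with square `1`, and among any three elements of `A` there
are two which commute. -/
def NoTriangle {G : Type u} [Group G] (A : Set G) : Prop :=
  A.Nonempty ∧ (∀ x ∈ A, x * x = 1) ∧
  ∀ x ∈ A, ∀ y ∈ A, ∀ z ∈ A, x * y = y * x ∨ y * z = z * y ∨ x * z = z * x

/-- `a, b ∈ A` have square `1` and do not commute; the elements of `A` which do not commute with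
`a` have square `1` and commute with one another, and the same holds for `b`. -/
def EdgeCase {G : Type u} [Group G] (A : Set G) : Prop :=
  ∃ a ∈ A, ∃ b ∈ A, a * a = 1 ∧ b * b = 1 ∧ a * b ≠ b * a ∧
  (∀ c ∈ A, c * a ≠ a * c → c * c = 1 ∧ ∀ d ∈ A, d * a ≠ a * d → c * d = d * c) ∧
  (∀ c ∈ A, c * b ≠ b * c → c * c = 1 ∧ ∀ d ∈ A, d * b ≠ b * d → c * d = d * c)

/-- `b ∈ A` has order two; `L ⊆ A` consists of elements with square `1` which commute with one
another; `⟨L ∪ {b}⟩` has at least `12` elements; and every element `c` of `A` outside `L` commutes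
with `b` and either satisfies `c² ∈ ⟨L ∪ {b}⟩` or commutes with all elements of `L`. -/
def VertexCase {G : Type u} [Group G] (A : Set G) : Prop :=
  ∃ b ∈ A, ∃ L ⊆ A, b ≠ 1 ∧ b * b = 1 ∧ (∀ x ∈ L, x * x = 1) ∧
  (∀ x ∈ L, ∀ y ∈ L, x * y = y * x) ∧ 12 ≤ Nat.card (Subgroup.closure (L ∪ {b})) ∧
  ∀ c ∈ A, c ∉ L → c * b = b * c ∧
    (c * c ∈ Subgroup.closure (L ∪ {b}) ∨ ∀ x ∈ L, c * x = x * c)

/-- `a, b ∈ A` have square `1` and `a b` has order at least six; every element `c` of `A` commutes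
with both `a` and `b`, or commutes with one of them and satisfies `c² ∈ ⟨a, b⟩`. -/
def PairCase {G : Type u} [Group G] (A : Set G) : Prop :=
  ∃ a ∈ A, ∃ b ∈ A, a * a = 1 ∧ b * b = 1 ∧ 6 ≤ orderOf (a * b) ∧
  ∀ c ∈ A, (c * a = a * c ∧ c * b = b * c) ∨
    (c * c ∈ Subgroup.closure ({a, b} : Set G) ∧ (c * a = a * c ∨ c * b = b * c))

theorem result {G : Type u} [Group G] [Finite G] (A : Set G) (hA : ∀ x ∈ A, x⁻¹ ∈ A)
    (hgen : Subgroup.closure A = ⊤)
    (hcase : NoTriangle A ∨ EdgeCase A ∨ VertexCase A ∨ PairCase A) :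
    ∃ a : Fin (Nat.card G) → G, ClosedListing A a := by
  have key : ∃ σ : Equiv.Perm G, CycOn A Set.univ σ := by
    rcases hcase with ⟨h1, h2, h3⟩ | ⟨a, ha, b, hb, ha2, hb2, hab, hNa, hNb⟩ |
      ⟨b, hb, L, hLA, hb1, hb2, hL, hLc, h12, hrest⟩ | ⟨a, ha, b, hb, ha2, hb2, hord, hrest⟩
    · exact case_four hgen h1 h2 h3
    · exact case_one hA hgen ha hb ha2 hb2 hab hNa hNb
    · exact case_two hA hgen hb hb1 hb2 hLA hL hLc h12 hrest
    · exact case_three hA hgen ha hb ha2 hb2 hord hrest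
  obtain ⟨σ, hσ⟩ := key
  exact listing_of_cyc hσ

end Pool.Agent.E8helper30.HC.CommutingTriples
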