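import Pool.Agent.E8helper30.HC.Alt

/-!
Merging the cosets of a subgroup `K` along edges with a fixed label `s`, when fewer than one third
of the edges of `K` with this label are missing from the cycle of `K`: a suitable translate of the
cycle contains any three given edges with label `s`.
-/

namespace Pool.Agent.E8helper30.HC

open Pool.Agent.R759.HC Finset

attribute [local instance] Classical.propDecidable

set_option linter.unusedSectionVars false

variable {G : Type*} [Group G]

/-- `x` lies in the coset `v`, and `x c` in the coset `w` for some `c ∈ C` -/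
def Lk (C : Set G) {K : Subgroup G} (v w : G ⧸ K) (x : G) : Prop :=
  (x : G ⧸ K) = v ∧ ∃ c ∈ C, ((x * c : G) : G ⧸ K) = w

/-- the graph on the cosets of `K` given by right multiplication by the elements of `C` -/
def lkg (C : Set G) (hC : ∀ c ∈ C, c⁻¹ ∈ C) (K : Subgroup G) : SimpleGraph (G ⧸ K) where
  Adj v w := v ≠ w ∧ ∃ x, Lk C v w x
  symm := ⟨by
    rintro v w ⟨hne, x, hx, c, hc, hxc⟩
    refine ⟨hne.symm, x * c, hxc, c⁻¹, hC c hc, ?_⟩
    rw [mul_inv_cancel_right]
    exact hx⟩
  loopless := ⟨fun v h => h.1 rfl⟩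

theorem lkg_inv (C : Set G) (hC : ∀ c ∈ C, c⁻¹ ∈ C) (K : Subgroup G) (g : G) (v w : G ⧸ K)
    (h : (lkg C hC K).Adj v w) : (lkg C hC K).Adj (g • v) (g • w) := by
  obtain ⟨hne, x, hx, c, hc, hxc⟩ := h
  refine ⟨fun h => hne (MulAction.injective g h), g * x, ?_, c, hc, ?_⟩
  · change g • (x : G ⧸ K) = g • v
    rw [hx]
  · have e : ((g * x * c : G) : G ⧸ K) = g • ((x * c : G) : G ⧸ K) := by
      rw [mul_assoc]; rfl
    rw [e, hxc]

theorem lkg_conn (C : Set G) (hC : ∀ c ∈ C, c⁻¹ ∈ C) (K : Subgroup G)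
    (hgen : Subgroup.closure ((K : Set G) ∪ C) = ⊤) : (lkg C hC K).Connected := by
  have hne : Nonempty (G ⧸ K) := ⟨((1 : G) : G ⧸ K)⟩
  have step : ∀ (x c : G), c ∈ C →
      (lkg C hC K).Reachable (x : G ⧸ K) ((x * c : G) : G ⧸ K) := by
    intro x c hc
    by_cases h : (x : G ⧸ K) = ((x * c : G) : G ⧸ K)
    · rw [← h]
    · have : (lkg C hC K).Adj (x : G ⧸ K) ((x * c : G) : G ⧸ K) := ⟨h, x, rfl, c, hc, rfl⟩
      exact this.reachable
  have stepK : ∀ (x c : G), c ∈ K → ((x : G) : G ⧸ K) = ((x * c : G) : G ⧸ K) := by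
    intro x c hc
    rw [QuotientGroup.eq]
    simpa using hc
  have key : ∀ g : G, (lkg C hC K).Reachable ((1 : G) : G ⧸ K) (g : G ⧸ K) := by
    intro g
    have hg : g ∈ Subgroup.closure ((K : Set G) ∪ C) := by rw [hgen]; trivial
    induction hg using Subgroup.closure_induction_right with
    | one => exact SimpleGraph.Reachable.refl _
    | mul_right x _ y hy ih =>
      rcases hy with hy | hy
      · rw [← stepK x y hy]; exact ih
      · exact ih.trans (step x y hy)
    | mul_inv_cancel x _ y hy ih =>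
      rcases hy with hy | hy
      · rw [← stepK x y⁻¹ (K.inv_mem hy)]; exact ih
      · exact ih.trans (step x y⁻¹ (hC y hy))
  refine SimpleGraph.Connected.mk ?_
  intro u v
  obtain ⟨x, rfl⟩ := QuotientGroup.mk_surjective u
  obtain ⟨y, rfl⟩ := QuotientGroup.mk_surjective v
  exact (key x).symm.trans (key y)

/-- At every coset the (at most three) links to given neighbours can be taken at different edges
with label `s`, one of them being prescribed. -/
def PortSel (C : Set G) (K : Subgroup G) (s : G) : Prop :=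
  ∀ (u : G ⧸ K) (W : Finset (G ⧸ K)), W.card ≤ 3 → (∀ w ∈ W, u ≠ w ∧ ∃ x, Lk C u w x) →
    ∀ w0 ∈ W, ∀ x0, Lk C u w0 x0 → ∃ pos : G ⧸ K → G, pos w0 = x0 ∧
      (∀ w ∈ W, Lk C u w (pos w)) ∧
      ∀ w ∈ W, ∀ w' ∈ W, w ≠ w' → pos w ≠ pos w' ∧ pos w ≠ pos w' * s

variable [Finite G]

theorem translate_good {A : Set G} {K : Subgroup G} {σ0 : Equiv.Perm G}
    (h0 : CycOn A (K : Set G) σ0) {s : G} (hl : 3 * lost σ0 (K : Set G) s < Nat.card K)
    (u : G ⧸ K) (X : Finset G) (hX : X.card ≤ 3) (hXu : ∀ x ∈ X, (x : G ⧸ K) = u) :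
    ∃ ρ : Equiv.Perm G, CycOn A {x | (x : G ⧸ K) = u} ρ ∧
      (∀ x ∈ X, ρ x = x * s ∨ ρ (x * s) = x) ∧
      ∀ t, lost ρ {x | (x : G ⧸ K) = u} t = lost σ0 (K : Set G) t := by
  obtain ⟨y, rfl⟩ := QuotientGroup.mk_surjective u
  set N : Set G := {x | x ∈ (K : Set G) ∧ σ0 x ≠ x * s ∧ σ0 (x * s) ≠ x} with hN
  obtain ⟨k, hk, hgood⟩ : ∃ k ∈ K, ∀ x ∈ X, (y * k)⁻¹ * x ∉ N := by
    by_contra hno
    push Not at hno
    have hsub : (K : Set G) ⊆ ⋃ x ∈ X, (fun l => y⁻¹ * x * l⁻¹) '' N := by
      intro k hk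
      obtain ⟨x, hx, hxN⟩ := hno k hk
      rw [Set.mem_iUnion₂]
      refine ⟨x, hx, _, hxN, ?_⟩
      simp only
      group
    have h1 := Set.ncard_le_ncard hsub (Set.toFinite _)
    have h2 := Finset.set_ncard_biUnion_le X (fun x => (fun l => y⁻¹ * x * l⁻¹) '' N)
    have h3 : ∑ x ∈ X, ((fun l => y⁻¹ * x * l⁻¹) '' N).ncard ≤ ∑ x ∈ X, N.ncard :=
      Finset.sum_le_sum fun x _ => Set.ncard_image_le (Set.toFinite _)
    rw [Finset.sum_const, smul_eq_mul] at h3
    have h4 : N.ncard = lost σ0 (K : Set G) s := rfl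
    have h5 : X.card * N.ncard ≤ 3 * N.ncard := Nat.mul_le_mul_right _ hX
    have h6 : (K : Set G).ncard = Nat.card K := rfl
    omega
  have hset : {x | (y * k)⁻¹ * x ∈ (K : Set G)} = {x : G | (x : G ⧸ K) = (y : G ⧸ K)} := by
    ext x
    change (y * k)⁻¹ * x ∈ K ↔ (x : G ⧸ K) = (y : G ⧸ K)
    rw [eq_comm, QuotientGroup.eq]
    have e : (y * k)⁻¹ * x = k⁻¹ * (y⁻¹ * x) := by group
    rw [e]
    exact Subgroup.mul_mem_cancel_left K (K.inv_mem hk)
  refine ⟨Equiv.mulLeft (y * k) * σ0 * (Equiv.mulLeft (y * k))⁻¹, ?_, ?_, ?_⟩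
  · have := h0.translate (y * k)
    rwa [hset] at this
  · intro x hx
    have h1 := hgood x hx
    have h2 : (y * k)⁻¹ * x ∈ K := by
      have : x ∈ {x | (y * k)⁻¹ * x ∈ (K : Set G)} := by rw [hset]; exact hXu x hx
      exact this
    rw [conj_ap, conj_ap]
    by_cases h3 : σ0 ((y * k)⁻¹ * x) = (y * k)⁻¹ * x * s
    · left
      rw [h3]; group
    · right
      have h4 : σ0 ((y * k)⁻¹ * x * s) = (y * k)⁻¹ * x := by
        by_contra h5
        exact h1 ⟨h2, h3, h5⟩
      rw [← mul_assoc, h4]; group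
  · intro t
    have := lost_translate σ0 (K : Set G) t (y * k)
    rwa [hset] at this

theorem free_core (A : Set G) (hA : ∀ x ∈ A, x⁻¹ ∈ A) (K : Subgroup G) (s : G) (hsK : s ∈ K)
    (hs1 : s ≠ 1) (hs2 : s * s = 1) {σ0 : Equiv.Perm G} (h0 : CycOn A (K : Set G) σ0)
    (hl : 3 * lost σ0 (K : Set G) s < Nat.card K) (C : Set G) (hCA : C ⊆ A)
    (hC : ∀ c ∈ C, c⁻¹ ∈ C) (hCs : ∀ c ∈ C, c * s = s * c)
    (hgen : Subgroup.closure ((K : Set G) ∪ C) = ⊤) (hport : PortSel C K s) :
    ∃ σ : Equiv.Perm G, CycOn A Set.univ σ ∧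
      lost σ Set.univ s + 4 ≤ Nat.card (G ⧸ K) * (lost σ0 (K : Set G) s + 4) ∧
      ∀ t, t ≠ 1 → t * t = 1 → t ≠ s →
        lost σ Set.univ t ≤ Nat.card (G ⧸ K) * lost σ0 (K : Set G) t := by
  have : Fintype G := Fintype.ofFinite G
  obtain ⟨T, hTle, hTtree, hTd⟩ := tree3 (G := G) (lkg C hC K) (lkg_conn C hC K hgen)
    (fun g u v h => lkg_inv C hC K g u v h) (fun x y => MulAction.exists_smul_eq G x y)
  have hTc := hTtree.connected
  have hmk : ∀ x : G, ((x * s : G) : G ⧸ K) = (x : G ⧸ K) := by
    intro x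
    rw [eq_comm, QuotientGroup.eq]
    simpa using hsK
  -- links at a coset
  have hW : ∀ u : G ⧸ K, ∀ w ∈ univ.filter fun w => T.Adj u w, u ≠ w ∧ ∃ x, Lk C u w x := by
    intro u w hw
    rw [Finset.mem_filter] at hw
    exact hTle hw.2
  have key : ∀ k : ℕ, k + 1 ≤ Fintype.card (G ⧸ K) → ∃ S : Finset (G ⧸ K), S.card = k + 1 ∧
      ∃ σ : Equiv.Perm G, CycOn A {x | (x : G ⧸ K) ∈ S} σ ∧
        (∀ v ∈ S, ∃ pos : G ⧸ K → G,
          (∀ w, T.Adj v w → w ∉ S → Lk C v w (pos w) ∧
            (σ (pos w) = pos w * s ∨ σ (pos w * s) = pos w)) ∧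
          ∀ w w', T.Adj v w → w ∉ S → T.Adj v w' → w' ∉ S → w ≠ w' →
            pos w ≠ pos w' ∧ pos w ≠ pos w' * s) ∧
        lost σ {x | (x : G ⧸ K) ∈ S} s + 4 ≤ (k + 1) * (lost σ0 (K : Set G) s + 4) ∧
        ∀ t, t ≠ 1 → t * t = 1 → t ≠ s →
          lost σ {x | (x : G ⧸ K) ∈ S} t ≤ (k + 1) * lost σ0 (K : Set G) t := by
    intro k
    induction k with
    | zero =>
      intro _
      set u : G ⧸ K := ((1 : G) : G ⧸ K) with hu
      set W := univ.filter fun w => T.Adj u w with hWdef
      obtain ⟨pos, hp1, hp2⟩ : ∃ pos : G ⧸ K → G, (∀ w ∈ W, Lk C u w (pos w)) ∧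
          ∀ w ∈ W, ∀ w' ∈ W, w ≠ w' → pos w ≠ pos w' ∧ pos w ≠ pos w' * s := by
        by_cases hWe : W.Nonempty
        · obtain ⟨w0, hw0⟩ := hWe
          obtain ⟨_, x0, hx0⟩ := hW u w0 hw0
          obtain ⟨pos, _, h1, h2⟩ := hport u W (hTd u) (hW u) w0 hw0 x0 hx0
          exact ⟨pos, h1, h2⟩
        · rw [Finset.not_nonempty_iff_eq_empty] at hWe
          refine ⟨fun _ => 1, ?_, ?_⟩
          · intro w hw
            rw [hWe] at hw
            exact absurd hw (Finset.notMem_empty _)
          · intro w hw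
            rw [hWe] at hw
            exact absurd hw (Finset.notMem_empty _)
      obtain ⟨ρ, hρ, hρX, hρl⟩ := translate_good h0 hl u (W.image pos)
        (Finset.card_image_le.trans (hTd u)) (by
          intro x hx
          rw [Finset.mem_image] at hx
          obtain ⟨w, hw, rfl⟩ := hx
          exact (hp1 w hw).1)
      have hS : {x : G | (x : G ⧸ K) ∈ ({u} : Finset (G ⧸ K))} = {x : G | (x : G ⧸ K) = u} := by
        ext x
        simp
      refine ⟨{u}, rfl, ρ, ?_, ?_, ?_, ?_⟩
      · rw [hS]; exact hρ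
      · intro v hv
        rw [Finset.mem_singleton] at hv
        subst hv
        refine ⟨pos, ?_, ?_⟩
        · intro w hw _
          have hwW : w ∈ W := by
            rw [hWdef, Finset.mem_filter]
            exact ⟨Finset.mem_univ _, hw⟩
          exact ⟨hp1 w hwW, hρX _ (Finset.mem_image_of_mem _ hwW)⟩
        · intro w w' hw _ hw' _ hne
          exact hp2 w (by
            rw [hWdef, Finset.mem_filter]
            exact ⟨Finset.mem_univ _, hw⟩) w' (by
            rw [hWdef, Finset.mem_filter]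
            exact ⟨Finset.mem_univ _, hw'⟩) hne
      · rw [hS, hρl]; simp
      · intro t _ _ _
        rw [hS, hρl]; simp
    | succ k ih =>
      intro hk
      obtain ⟨S, hS, σ, hσ, hinv, hlost1, hlost2⟩ := ih (by omega)
      have hSne : S.Nonempty := by
        rw [← Finset.card_pos]; omega
      have hSu : S ≠ univ := by
        intro h
        have : S.card = Fintype.card (G ⧸ K) := by rw [h]; rfl
        omega
      obtain ⟨v, u, hvu, hvS, huS⟩ := exists_cross hTc S hSne hSu
      obtain ⟨posv, hv1, hv2⟩ := hinv v hvS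
      obtain ⟨⟨hz0v, c, hc, hz0u⟩, hz0σ⟩ := hv1 u hvu huS
      -- the oriented edge
      obtain ⟨z, hzv, hzu, hσz, hzz⟩ : ∃ z : G, (z : G ⧸ K) = v ∧ ((z * c : G) : G ⧸ K) = u ∧
          σ z = z * s ∧ (z = posv u ∨ z = posv u * s) := by
        rcases hz0σ with h | h
        · exact ⟨posv u, hz0v, hz0u, h, Or.inl rfl⟩
        · refine ⟨posv u * s, by rw [hmk, hz0v], ?_, ?_, Or.inr rfl⟩
          · rw [mul_assoc, ← hCs c hc, ← mul_assoc, hmk]
            exact hz0u
          · rw [h, mul_assoc, hs2, mul_one]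
      set x0 := z * c with hx0
      have hLx0 : Lk C u v x0 := ⟨hzu, c⁻¹, hC c hc, by rw [hx0, mul_inv_cancel_right]; exact hzv⟩
      set W := univ.filter fun w => T.Adj u w with hWdef
      have hmemW : ∀ w, T.Adj u w → w ∈ W := by
        intro w hw
        rw [hWdef, Finset.mem_filter]
        exact ⟨Finset.mem_univ _, hw⟩
      have hvW : v ∈ W := hmemW v hvu.symm
      obtain ⟨posu, hu0, hu1, hu2⟩ := hport u W (hTd u) (hW u) v hvW x0 hLx0
      obtain ⟨ρ', hρ', hρX', hρl'⟩ := translate_good h0 hl u (W.image posu)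
        (Finset.card_image_le.trans (hTd u)) (by
          intro x hx
          rw [Finset.mem_image] at hx
          obtain ⟨w, hw, rfl⟩ := hx
          exact (hu1 w hw).1)
      obtain ⟨ρ, hρ, hρX, hρl, hρx0⟩ : ∃ ρ : Equiv.Perm G, CycOn A {x | (x : G ⧸ K) = u} ρ ∧
          (∀ w ∈ W, ρ (posu w) = posu w * s ∨ ρ (posu w * s) = posu w) ∧
          (∀ t, lost ρ {x | (x : G ⧸ K) = u} t = lost σ0 (K : Set G) t) ∧ ρ (x0 * s) = x0 := by
        have h1 := hρX' _ (Finset.mem_image_of_mem _ hvW)
        rw [hu0] at h1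
        rcases h1 with h1 | h1
        · refine ⟨ρ'⁻¹, hρ'.inv hA, ?_, fun t => by rw [lost_inv, hρl'], ?_⟩
          · intro w hw
            rcases hρX' _ (Finset.mem_image_of_mem _ hw) with h2 | h2
            · right
              rw [Equiv.Perm.inv_eq_iff_eq]; exact h2.symm
            · left
              rw [Equiv.Perm.inv_eq_iff_eq]; exact h2.symm
          · rw [Equiv.Perm.inv_eq_iff_eq]; exact h1.symm
        · exact ⟨ρ', hρ', fun w hw => hρX' _ (Finset.mem_image_of_mem _ hw), hρl', h1⟩
      have hdis : ∀ w : G, w ∈ {x : G | (x : G ⧸ K) ∈ S} → w ∉ {x : G | (x : G ⧸ K) = u} := by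
        intro w hw hw'
        apply huS
        have e1 : (w : G ⧸ K) ∈ S := hw
        have e2 : (w : G ⧸ K) = u := hw'
        rwa [e2] at e1
      have hzS : z ∈ {x : G | (x : G ⧸ K) ∈ S} := by
        change (z : G ⧸ K) ∈ S
        rw [hzv]; exact hvS
      have hyu : x0 * s ∈ {x : G | (x : G ⧸ K) = u} := by
        change ((x0 * s : G) : G ⧸ K) = u
        rw [hmk]; exact hzu
      obtain ⟨hm, em1, em2⟩ := hσ.merge hρ hdis hzS hyu hρx0
        (by
          rw [hx0, inv_mul_cancel_left]
          exact hCA hc)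
        (by
          have e : (x0 * s)⁻¹ * σ z = s⁻¹ * c⁻¹ * s := by rw [hσz, hx0]; group
          have e2 : s⁻¹ * c⁻¹ * s = c⁻¹ := by
            have h3 := hCs _ (hC c hc)
            rw [mul_assoc, h3, inv_mul_cancel_left]
          rw [e, e2]
          exact hA _ (hCA hc))
      have hml := fun (t : G) (ht1 : t ≠ 1) (ht2 : t * t = 1) =>
        lost_merge (s := t) hσ hρ hzS hyu em1 em2 ht1 ht2
      set σ' := σ * ρ * Equiv.swap z (x0 * s) with hσ'
      have hset : {x : G | (x : G ⧸ K) ∈ insert u S} =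
          {x : G | (x : G ⧸ K) ∈ S} ∪ {x : G | (x : G ⧸ K) = u} := by
        ext z
        simp only [Finset.mem_insert, Set.mem_ofPred_eq, Set.mem_union]
        tauto
      refine ⟨insert u S, ?_, σ', ?_, ?_, ?_, ?_⟩
      · rw [Finset.card_insert_of_notMem huS, hS]
      · rw [hset]
        exact hm
      · intro v' hv'
        by_cases hvu' : v' = u
        · subst hvu'
          refine ⟨posu, ?_, ?_⟩
          · intro w hw hwS
            have hwW := hmemW w hw
            have hwv : w ≠ v := by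
              rintro rfl
              exact hwS (Finset.mem_insert_of_mem hvS)
            have h1 := hu2 w hwW v hvW hwv
            rw [hu0] at h1
            have hin : posu w ∈ {x : G | (x : G ⧸ K) = v'} := (hu1 w hwW).1
            have hin' : posu w * s ∈ {x : G | (x : G ⧸ K) = v'} := by
              change ((posu w * s : G) : G ⧸ K) = v'
              rw [hmk]; exact hin
            refine ⟨hu1 w hwW, ?_⟩
            rw [em2 _ hin h1.2, em2 _ hin' (fun h => h1.1 (mul_right_cancel h))]
            exact hρX w hwW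
          · intro w w' hw _ hw' _ hne
            exact hu2 w (hmemW w hw) w' (hmemW w' hw') hne
        · have hv'S : v' ∈ S := by
            rw [Finset.mem_insert] at hv'
            exact hv'.resolve_left hvu'
          by_cases hvv : v' = v
          · subst hvv
            refine ⟨posv, ?_, ?_⟩
            · intro w hw hwS
              rw [Finset.mem_insert, not_or] at hwS
              obtain ⟨h1, h2⟩ := hv1 w hw hwS.2
              have h3 := hv2 w u hw hwS.2 hvu huS hwS.1
              have hin : posv w ∈ {x : G | (x : G ⧸ K) ∈ S} := by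
                change ((posv w : G) : G ⧸ K) ∈ S
                rw [h1.1]; exact hv'S
              have hin' : posv w * s ∈ {x : G | (x : G ⧸ K) ∈ S} := by
                change ((posv w * s : G) : G ⧸ K) ∈ S
                rw [hmk]; exact hin
              have n1 : posv w ≠ z := by
                rcases hzz with h | h
                · rw [h]; exact h3.1
                · rw [h]; exact h3.2
              have n2 : posv w * s ≠ z := by
                rcases hzz with h | h
                · rw [h]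
                  intro h4
                  apply h3.2
                  rw [← h4, mul_assoc, hs2, mul_one]
                · rw [h]
                  exact fun h4 => h3.1 (mul_right_cancel h4)
              refine ⟨h1, ?_⟩
              rw [em1 _ hin n1, em1 _ hin' n2]
              exact h2
            · intro w w' hw hwS hw' hwS' hne
              rw [Finset.mem_insert, not_or] at hwS hwS'
              exact hv2 w w' hw hwS.2 hw' hwS'.2 hne
          · obtain ⟨pos, hp1, hp2⟩ := hinv v' hv'S
            refine ⟨pos, ?_, ?_⟩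
            · intro w hw hwS
              rw [Finset.mem_insert, not_or] at hwS
              obtain ⟨h1, h2⟩ := hp1 w hw hwS.2
              have hin : pos w ∈ {x : G | (x : G ⧸ K) ∈ S} := by
                change ((pos w : G) : G ⧸ K) ∈ S
                rw [h1.1]; exact hv'S
              have hin' : pos w * s ∈ {x : G | (x : G ⧸ K) ∈ S} := by
                change ((pos w * s : G) : G ⧸ K) ∈ S
                rw [hmk]; exact hin
              have n1 : pos w ≠ z := by
                intro h
                apply hvv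
                rw [← h1.1, h, hzv]
              have n2 : pos w * s ≠ z := by
                intro h
                apply hvv
                rw [← h1.1, ← hmk, h, hzv]
              refine ⟨h1, ?_⟩
              rw [em1 _ hin n1, em1 _ hin' n2]
              exact h2
            · intro w w' hw hwS hw' hwS' hne
              rw [Finset.mem_insert, not_or] at hwS hwS'
              exact hp2 w w' hw hwS.2 hw' hwS'.2 hne
      · have h1 := hml s hs1 hs2
        rw [hset]
        have h2 : ∀ g : G, (if g = s then 2 else 0) ≤ 2 := by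
          intro g; split_ifs <;> omega
        have h3 := h2 (z⁻¹ * σ z)
        have h4 := h2 ((x0 * s)⁻¹ * ρ (x0 * s))
        have h5 := hρl s
        rw [h5] at h1
        have e : (k + 1 + 1) * (lost σ0 (K : Set G) s + 4) =
            (k + 1) * (lost σ0 (K : Set G) s + 4) + (lost σ0 (K : Set G) s + 4) := by ring
        rw [e]
        omega
      · intro t ht1 ht2 hts
        have h1 := hml t ht1 ht2
        rw [hset]
        have h3 : z⁻¹ * σ z ≠ t := by
          rw [hσz, inv_mul_cancel_left]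
          exact hts.symm
        have h4 : (x0 * s)⁻¹ * ρ (x0 * s) ≠ t := by
          rw [hρx0, mul_inv_rev, inv_mul_cancel_right, inv_eq_of_mul_eq_one_left hs2]
          exact hts.symm
        rw [if_neg h3, if_neg h4, hρl t] at h1
        have h5 := hlost2 t ht1 ht2 hts
        have e : (k + 1 + 1) * lost σ0 (K : Set G) t =
            (k + 1) * lost σ0 (K : Set G) t + lost σ0 (K : Set G) t := by ring
        rw [e]
        omega
  have hpos : 0 < Fintype.card (G ⧸ K) := Fintype.card_pos_iff.2 ⟨((1 : G) : G ⧸ K)⟩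
  obtain ⟨S, hS, σ, hσ, _, hl1, hl2⟩ := key (Fintype.card (G ⧸ K) - 1) (by omega)
  have hSu : S = univ := by
    apply Finset.eq_univ_of_card
    omega
  have hset : {x : G | (x : G ⧸ K) ∈ S} = Set.univ := by
    rw [hSu]; ext x; simp
  have hcard : Fintype.card (G ⧸ K) - 1 + 1 = Nat.card (G ⧸ K) := by
    rw [Nat.card_eq_fintype_card]; omega
  rw [hset] at hσ hl1 hl2
  rw [hcard] at hl1 hl2
  exact ⟨σ, hσ, hl1, hl2⟩

end Pool.Agent.E8helper30.HC
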