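import Pool.Agent.E8helper30.HC.Free

/-!
Two situations in which the links at a coset can be taken at different edges, and the passage to
a subgroup.
-/

namespace Pool.Agent.E8helper30.HC

open Pool.Agent.R759.HC Finset

attribute [local instance] Classical.propDecidable

set_option linter.unusedSectionVars false

variable {G : Type*} [Group G]

theorem portSel_sq {K : Subgroup G} {s c : G} (hsK : s ∈ K) (hcs : c * s = s * c)
    (hcc : c * c ∈ K) : PortSel {c, c⁻¹} K s := by
  have hmk : ∀ x : G, ((x * c⁻¹ : G) : G ⧸ K) = ((x * c : G) : G ⧸ K) := by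
    intro x
    rw [QuotientGroup.eq]
    have e : (x * c⁻¹)⁻¹ * (x * c) = c * c := by group
    rw [e]; exact hcc
  have hLk : ∀ {u w : G ⧸ K} {x : G}, Lk {c, c⁻¹} u w x → ((x * c : G) : G ⧸ K) = w := by
    rintro u w x ⟨_, d, hd, hxd⟩
    rcases hd with rfl | hd
    · exact hxd
    · rw [Set.mem_singleton_iff] at hd
      subst hd
      rw [← hmk]; exact hxd
  intro u W _ hW w0 hw0 x0 hx0
  have hch : ∀ w : G ⧸ K, ∃ x, w ∈ W → Lk {c, c⁻¹} u w x := by
    intro w
    by_cases h : w ∈ W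
    · obtain ⟨_, x, hx⟩ := hW w h
      exact ⟨x, fun _ => hx⟩
    · exact ⟨1, fun h' => absurd h' h⟩
  choose f hf using hch
  have hpos : ∀ w ∈ W, Lk {c, c⁻¹} u w (if w = w0 then x0 else f w) := by
    intro w hw
    by_cases h : w = w0
    · rw [if_pos h, h]; exact hx0
    · rw [if_neg h]; exact hf w hw
  refine ⟨fun w => if w = w0 then x0 else f w, if_pos rfl, hpos, ?_⟩
  intro w hw w' hw' hne
  have h1 := hLk (hpos w hw)
  have h2 := hLk (hpos w' hw')
  refine ⟨fun h => hne ?_, fun h => hne ?_⟩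
  · rw [← h1, ← h2]
    simp only at h
    rw [h]
  · rw [← h1, ← h2]
    simp only at h
    rw [h, mul_assoc, ← hcs, ← mul_assoc, eq_comm, QuotientGroup.eq, inv_mul_cancel_left]
    exact hsK

theorem portSel_six [Finite G] {K E : Subgroup G} {s : G} (hs2 : s * s = 1) {C : Set G}
    (hEK : E ≤ K) (hE6 : 6 ≤ Nat.card E) (hCE : ∀ c ∈ C, ∀ e ∈ E, c * e = e * c) :
    PortSel C K s := by
  intro u W hWc hW w0 hw0 x0 hx0
  -- each neighbour can be reached from at least six elements
  have hbig : ∀ w ∈ W, 6 ≤ {x | Lk C u w x}.ncard := by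
    intro w hw
    obtain ⟨_, x, hxu, c, hc, hxc⟩ := hW w hw
    have hsub : (fun e => x * e) '' (E : Set G) ⊆ {x | Lk C u w x} := by
      rintro _ ⟨e, he, rfl⟩
      refine ⟨?_, c, hc, ?_⟩
      · rw [← hxu, eq_comm, QuotientGroup.eq, inv_mul_cancel_left]
        exact hEK he
      · rw [← hxc, mul_assoc, ← hCE c hc e he, ← mul_assoc, eq_comm, QuotientGroup.eq,
          inv_mul_cancel_left]
        exact hEK he
    have h1 := Set.ncard_le_ncard hsub (Set.toFinite _)
    rw [Set.ncard_image_of_injective _ (mul_right_injective x)] at h1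
    exact hE6.trans h1
  have key : ∀ W' : Finset (G ⧸ K), W' ⊆ W → W'.card ≤ 2 → ∃ pos : G ⧸ K → G,
      (∀ w ∈ W', Lk C u w (pos w) ∧ pos w ≠ x0 ∧ pos w ≠ x0 * s) ∧
      ∀ w ∈ W', ∀ w' ∈ W', w ≠ w' → pos w ≠ pos w' ∧ pos w ≠ pos w' * s := by
    intro W'
    induction W' using Finset.induction_on with
    | empty => intro _ _; exact ⟨fun _ => 1, by simp, by simp⟩
    | insert w W' hwW' ih =>
      intro hsub hcard
      rw [Finset.card_insert_of_notMem hwW'] at hcard
      obtain ⟨pos, h1, h2⟩ := ih (fun x hx => hsub (Finset.mem_insert_of_mem hx)) (by omega)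
      let F : Finset G := {x0, x0 * s} ∪ (W'.image pos ∪ W'.image fun w => pos w * s)
      have hF : F.card ≤ 4 := by
        have e1 : ({x0, x0 * s} : Finset G).card ≤ 2 := Finset.card_le_two
        have e2 : (W'.image pos).card ≤ W'.card := Finset.card_image_le
        have e3 : (W'.image fun w => pos w * s).card ≤ W'.card := Finset.card_image_le
        have e4 := Finset.card_union_le ({x0, x0 * s} : Finset G)
          (W'.image pos ∪ W'.image fun w => pos w * s)
        have e5 := Finset.card_union_le (W'.image pos) (W'.image fun w => pos w * s)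
        change ({x0, x0 * s} ∪ (W'.image pos ∪ W'.image fun w => pos w * s)).card ≤ 4
        omega
      obtain ⟨x, hx, hxF⟩ : ∃ x, Lk C u w x ∧ x ∉ F := by
        by_contra hno
        push Not at hno
        have h3 : {x | Lk C u w x} ⊆ (F : Set G) := fun x hx => hno x hx
        have h4 := Set.ncard_le_ncard h3 (Set.toFinite _)
        rw [Set.ncard_coe_finset] at h4
        have h5 := hbig w (hsub (Finset.mem_insert_self _ _))
        omega
      simp only [F, Finset.mem_union, Finset.mem_insert, Finset.mem_singleton, Finset.mem_image,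
        not_or, not_exists, not_and] at hxF
      obtain ⟨⟨f1, f2⟩, f3, f4⟩ := hxF
      have up1 : ∀ w' ∈ W', Function.update pos w x w' = pos w' := by
        intro w' hw'
        exact Function.update_of_ne (fun h : w' = w => hwW' (by rw [← h]; exact hw')) _ _
      have up2 : Function.update pos w x w = x := Function.update_self _ _ _
      refine ⟨Function.update pos w x, ?_, ?_⟩
      · intro w' hw'
        rw [Finset.mem_insert] at hw'
        rcases hw' with rfl | hw'
        · rw [up2]; exact ⟨hx, f1, f2⟩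
        · rw [up1 w' hw']; exact h1 w' hw'
      · intro w1 hw1 w2 hw2 hne
        rw [Finset.mem_insert] at hw1 hw2
        rcases hw1 with rfl | hw1
        · rcases hw2 with rfl | hw2
          · exact absurd rfl hne
          · rw [up2, up1 w2 hw2]
            exact ⟨fun h => f3 w2 hw2 h.symm, fun h => f4 w2 hw2 h.symm⟩
        · rcases hw2 with rfl | hw2
          · rw [up2, up1 w1 hw1]
            refine ⟨f3 w1 hw1, fun h => f4 w1 hw1 ?_⟩
            rw [h, mul_assoc, hs2, mul_one]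
          · rw [up1 w1 hw1, up1 w2 hw2]
            exact h2 w1 hw1 w2 hw2 hne
  obtain ⟨pos, h1, h2⟩ := key (W.erase w0) (Finset.erase_subset _ _) (by
    rw [Finset.card_erase_of_mem hw0]; omega)
  have up1 : ∀ w', w' ≠ w0 → Function.update pos w0 x0 w' = pos w' := by
    intro w' hw'
    exact Function.update_of_ne hw' _ _
  have up2 : Function.update pos w0 x0 w0 = x0 := Function.update_self _ _ _
  refine ⟨Function.update pos w0 x0, up2, ?_, ?_⟩
  · intro w hw
    by_cases h : w = w0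
    · rw [h, up2]; exact hx0
    · rw [up1 w h]; exact (h1 w (Finset.mem_erase.2 ⟨h, hw⟩)).1
  · intro w hw w' hw' hne
    by_cases h : w = w0
    · have h' : w' ≠ w0 := fun e => hne (h.trans e.symm)
      rw [h, up2, up1 w' h']
      obtain ⟨_, g1, g2⟩ := h1 w' (Finset.mem_erase.2 ⟨h', hw'⟩)
      refine ⟨fun e => g1 e.symm, fun e => g2 ?_⟩
      rw [e, mul_assoc, hs2, mul_one]
    · by_cases h' : w' = w0
      · rw [h', up2, up1 w h]
        obtain ⟨_, g1, g2⟩ := h1 w (Finset.mem_erase.2 ⟨h, hw⟩)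
        exact ⟨g1, g2⟩
      · rw [up1 w h, up1 w' h']
        exact h2 w (Finset.mem_erase.2 ⟨h, hw⟩) w' (Finset.mem_erase.2 ⟨h', hw'⟩) hne

/-- the cycle of `K`, seen inside a larger subgroup -/
theorem go_down {A : Set G} {K K' : Subgroup G} (hKK : K ≤ K') {σ0 : Equiv.Perm G}
    (h0 : CycOn A (K : Set G) σ0) : ∃ τ : Equiv.Perm K', (∀ x, ((τ x : K') : G) = σ0 x) ∧
      CycOn {x : K' | (x : G) ∈ A} (K.subgroupOf K' : Set K') τ := by
  have hp : ∀ x, σ0 x ∈ K' ↔ x ∈ K' := by
    intro x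
    by_cases hx : x ∈ K
    · exact ⟨fun _ => hKK hx, fun _ => hKK (h0.maps x hx)⟩
    · rw [h0.fix x hx]
  refine ⟨σ0.subtypePerm hp, fun x => rfl, ?_, ?_, ?_, ?_⟩
  · intro x hx
    apply Subtype.ext
    exact h0.fix _ (fun h => hx (by simpa [Subgroup.mem_subgroupOf] using h))
  · intro x hx
    exact h0.maps _ (by simpa [Subgroup.mem_subgroupOf] using hx)
  · intro x hx
    exact h0.step _ (by simpa [Subgroup.mem_subgroupOf] using hx)
  · intro x hx y hy
    rw [Equiv.Perm.sameCycle_subtypePerm]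
    exact h0.cyc _ (by simpa [Subgroup.mem_subgroupOf] using hx) _
      (by simpa [Subgroup.mem_subgroupOf] using hy)

theorem go_up {A : Set G} {K' : Subgroup G} {σ : Equiv.Perm K'}
    (h : CycOn {x : K' | (x : G) ∈ A} Set.univ σ) :
    ∃ τ : Equiv.Perm G, (∀ x : K', τ x = σ x) ∧ CycOn A (K' : Set G) τ := by
  let τ : Equiv.Perm G := Equiv.Perm.ofSubtype σ
  have t1 : ∀ x (hx : x ∈ K'), τ x = σ ⟨x, hx⟩ := fun x hx => Equiv.Perm.ofSubtype_apply_of_mem σ hx
  have t2 : ∀ x, x ∉ K' → τ x = x := fun x hx => Equiv.Perm.ofSubtype_apply_of_not_mem σ hx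
  refine ⟨τ, fun x => t1 x x.2, ⟨fun x hx => t2 x hx, ?_, ?_, ?_⟩⟩
  · intro x hx
    rw [t1 x hx]
    exact (σ ⟨x, hx⟩).2
  · intro x hx
    rw [t1 x hx]
    exact h.step ⟨x, hx⟩ (Set.mem_univ _)
  · intro x hx y hy
    obtain ⟨n, hn⟩ := h.cyc ⟨x, hx⟩ (Set.mem_univ _) ⟨y, hy⟩ (Set.mem_univ _)
    refine ⟨n, ?_⟩
    have e : τ ^ n = Equiv.Perm.ofSubtype (σ ^ n) := (map_zpow Equiv.Perm.ofSubtype σ n).symm
    rw [e]
    have h1 := Equiv.Perm.ofSubtype_apply_of_mem (σ ^ n) (a := x) hx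
    rw [h1, hn]

theorem lost_sub {K' : Subgroup G} {σ : Equiv.Perm K'} {τ : Equiv.Perm G}
    (hστ : ∀ x : K', τ x = σ x) {U : Set G} (hU : U ⊆ K') (s : K') :
    lost σ {x : K' | (x : G) ∈ U} s = lost τ U (s : G) := by
  unfold lost
  have e : {x | x ∈ U ∧ τ x ≠ x * (s : G) ∧ τ (x * (s : G)) ≠ x} =
      Subtype.val '' {x : K' | x ∈ {x : K' | (x : G) ∈ U} ∧ σ x ≠ x * s ∧ σ (x * s) ≠ x} := by
    ext x
    constructor
    · rintro ⟨h1, h2, h3⟩
      refine ⟨⟨x, hU h1⟩, ⟨h1, ?_, ?_⟩, rfl⟩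
      · intro h
        apply h2
        rw [hστ ⟨x, hU h1⟩, h]; rfl
      · intro h
        apply h3
        have := hστ (⟨x, hU h1⟩ * s)
        rw [h] at this
        exact this
    · rintro ⟨y, ⟨h1, h2, h3⟩, rfl⟩
      refine ⟨h1, ?_, ?_⟩
      · intro h
        apply h2
        apply Subtype.ext
        rw [← hστ y, h]; rfl
      · intro h
        apply h3
        apply Subtype.ext
        rw [← hστ (y * s)]
        exact h
  rw [e]
  exact (Set.ncard_image_of_injective _ Subtype.val_injective).symm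

variable [Finite G]

/-- adding a set `C` of generators commuting with `s` -/
theorem free_step (A : Set G) (hA : ∀ x ∈ A, x⁻¹ ∈ A) {K : Subgroup G} {s : G} (hsK : s ∈ K)
    (hs1 : s ≠ 1) (hs2 : s * s = 1) {σ0 : Equiv.Perm G} (h0 : CycOn A (K : Set G) σ0)
    (hl : 3 * lost σ0 (K : Set G) s < Nat.card K) {C : Set G} (hCA : C ⊆ A)
    (hC : ∀ c ∈ C, c⁻¹ ∈ C) (hCs : ∀ c ∈ C, c * s = s * c)
    (hport : ∀ (hs : s ∈ Subgroup.closure ((K : Set G) ∪ C)),
      PortSel {x : Subgroup.closure ((K : Set G) ∪ C) | (x : G) ∈ C}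
        (K.subgroupOf (Subgroup.closure ((K : Set G) ∪ C))) ⟨s, hs⟩) :
    ∃ (σ : Equiv.Perm G) (m : ℕ), CycOn A (Subgroup.closure ((K : Set G) ∪ C) : Set G) σ ∧
      m * Nat.card K = Nat.card (Subgroup.closure ((K : Set G) ∪ C)) ∧
      lost σ (Subgroup.closure ((K : Set G) ∪ C) : Set G) s + 4 ≤
        m * (lost σ0 (K : Set G) s + 4) ∧
      ∀ t ∈ K, t ≠ 1 → t * t = 1 → t ≠ s →
        lost σ (Subgroup.closure ((K : Set G) ∪ C) : Set G) t ≤ m * lost σ0 (K : Set G) t := by
  set K' := Subgroup.closure ((K : Set G) ∪ C) with hK'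
  have hKK : K ≤ K' := fun x hx => Subgroup.subset_closure (Or.inl hx)
  have hsK' : s ∈ K' := hKK hsK
  obtain ⟨τ, hτ, hcτ⟩ := go_down hKK h0
  have hKcard : Nat.card (K.subgroupOf K') = Nat.card K :=
    Nat.card_congr (Subgroup.subgroupOfEquivOfLe hKK).toEquiv
  have hKset : (K.subgroupOf K' : Set K') = {x : K' | (x : G) ∈ (K : Set G)} := by
    ext x
    simp [Subgroup.mem_subgroupOf]
  have hdown : ∀ t (ht : t ∈ K'), lost τ (K.subgroupOf K' : Set K') ⟨t, ht⟩ =
      lost σ0 (K : Set G) t := by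
    intro t ht
    rw [hKset]
    exact lost_sub (fun x => (hτ x).symm) hKK ⟨t, ht⟩
  have hne : ∀ {t : G} (ht : t ∈ K'), t ≠ 1 → (⟨t, ht⟩ : K') ≠ 1 := by
    intro t ht h1 h2
    exact h1 (congrArg Subtype.val h2)
  have hsq : ∀ {t : G} (ht : t ∈ K'), t * t = 1 → (⟨t, ht⟩ : K') * ⟨t, ht⟩ = 1 := by
    intro t ht h1
    exact Subtype.ext h1
  obtain ⟨σ, h1, h2, h3⟩ := free_core (G := K') {x : K' | (x : G) ∈ A} (fun x hx => hA _ hx)
    (K.subgroupOf K') ⟨s, hsK'⟩ (by simpa [Subgroup.mem_subgroupOf] using hsK) (hne hsK' hs1)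
    (hsq hsK' hs2) hcτ (by rw [hdown, hKcard]; exact hl) {x : K' | (x : G) ∈ C}
    (fun x hx => hCA hx) (fun x hx => hC _ hx) (fun x hx => Subtype.ext (hCs _ hx))
    (by
      have h4 := Subgroup.closure_closure_coe_preimage (k := (K : Set G) ∪ C)
      rw [hKset]
      exact h4)
    (hport hsK')
  obtain ⟨ρ, hρ, hcρ⟩ := go_up h1
  have hup : ∀ t (ht : t ∈ K'), lost σ Set.univ ⟨t, ht⟩ = lost ρ (K' : Set G) t := by
    intro t ht
    have e : (Set.univ : Set K') = {x : K' | (x : G) ∈ (K' : Set G)} := by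
      ext x
      simp
    rw [e]
    exact lost_sub hρ (le_refl _) ⟨t, ht⟩
  refine ⟨ρ, Nat.card (K' ⧸ K.subgroupOf K'), hcρ, ?_, ?_, ?_⟩
  · rw [← hKcard]
    exact (Subgroup.card_eq_card_quotient_mul_card_subgroup (K.subgroupOf K')).symm
  · rw [← hup s hsK', ← hdown s hsK']
    exact h2
  · intro t ht ht1 ht2 hts
    rw [← hup t (hKK ht), ← hdown t (hKK ht)]
    exact h3 _ (hne _ ht1) (hsq _ ht2) (fun h => hts (congrArg Subtype.val h))

end Pool.Agent.E8helper30.HC
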