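import Pool.Agent.E8helper30.HC.Base
import Pool.Agent.E8helper30.HC.Port

/-!
Assembling the cycles.
-/

namespace Pool.Agent.E8helper30.HC

open Pool.Agent.R759.HC

attribute [local instance] Classical.propDecidable

set_option linter.unusedSectionVars false

variable {G : Type*} [Group G] [Finite G]

/-- adding the elements of `A` one by one -/
theorem chain {A : Set G} {K0 : Subgroup G} {St : Subgroup G → Prop} (h0 : St K0)
    (hstep : ∀ K, K0 ≤ K → St K → ∀ c ∈ A, c ∉ K → ∃ K', K ≤ K' ∧ c ∈ K' ∧ St K')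
    (hgen : Subgroup.closure A = ⊤) : St ⊤ := by
  have key : ∀ F : Finset G, (F : Set G) ⊆ A → ∃ K, K0 ≤ K ∧ (∀ x ∈ F, x ∈ K) ∧ St K := by
    intro F
    induction F using Finset.induction_on with
    | empty => intro _; exact ⟨K0, le_refl _, by simp, h0⟩
    | insert c F hcF ih =>
      intro hF
      obtain ⟨K, h1, h2, h3⟩ := ih (fun x hx => hF (by simp at hx ⊢; exact Or.inr hx))
      by_cases hc : c ∈ K
      · refine ⟨K, h1, ?_, h3⟩
        intro x hx
        rw [Finset.mem_insert] at hx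
        rcases hx with rfl | hx
        · exact hc
        · exact h2 x hx
      · obtain ⟨K', h4, h5, h6⟩ := hstep K h1 h3 c (hF (by simp)) hc
        refine ⟨K', h1.trans h4, ?_, h6⟩
        intro x hx
        rw [Finset.mem_insert] at hx
        rcases hx with rfl | hx
        · exact h5
        · exact h4 (h2 x hx)
  obtain ⟨K, _, h2, h3⟩ := key (Set.toFinite A).toFinset (by simp)
  have hK : K = ⊤ := by
    rw [eq_top_iff, ← hgen, Subgroup.closure_le]
    intro x hx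
    exact h2 x (by simpa using hx)
  rwa [hK] at h3

theorem cycOn_mono {A B U : Set G} {σ : Equiv.Perm G} (h : CycOn B U σ) (hBA : B ⊆ A) :
    CycOn A U σ := ⟨h.fix, h.maps, fun x hx => hBA (h.step x hx), h.cyc⟩

theorem inv_comm {c s : G} (h : c * s = s * c) : c⁻¹ * s = s * c⁻¹ := by
  rw [inv_mul_eq_iff_eq_mul, ← mul_assoc, h, mul_assoc, mul_inv_cancel, mul_one]

theorem port_any {K K' : Subgroup G} (hKK' : K ≤ K') {s c : G} (hsK : s ∈ K) (hs2 : s * s = 1)
    (hcK' : c ∈ K') (hcs : c * s = s * c)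
    (hcc : c * c ∈ K ∨ ∃ E : Subgroup G, E ≤ K ∧ 6 ≤ Nat.card E ∧ ∀ e ∈ E, c * e = e * c)
    (hs : s ∈ K') :
    PortSel {x : K' | (x : G) ∈ ({c, c⁻¹} : Set G)} (K.subgroupOf K') ⟨s, hs⟩ := by
  have hset : {x : K' | (x : G) ∈ ({c, c⁻¹} : Set G)} =
      {(⟨c, hcK'⟩ : K'), (⟨c, hcK'⟩ : K')⁻¹} := by
    ext x
    simp only [Set.mem_ofPred_eq, Set.mem_insert_iff, Set.mem_singleton_iff, Subtype.ext_iff,
      Subgroup.coe_inv]
  rcases hcc with hcc | ⟨E, hE1, hE2, hE3⟩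
  · rw [hset]
    refine portSel_sq ?_ ?_ ?_
    · rw [Subgroup.mem_subgroupOf]; exact hsK
    · exact Subtype.ext hcs
    · rw [Subgroup.mem_subgroupOf]; exact hcc
  · refine portSel_six (E := E.subgroupOf K') (Subtype.ext hs2) ?_ ?_ ?_
    · intro x hx
      rw [Subgroup.mem_subgroupOf] at hx ⊢
      exact hE1 hx
    · rw [Nat.card_congr (Subgroup.subgroupOfEquivOfLe (hE1.trans hKK')).toEquiv]
      exact hE2
    · intro x hx e he
      rw [Subgroup.mem_subgroupOf] at he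
      apply Subtype.ext
      have hx' : (x : G) = c ∨ (x : G) = c⁻¹ := hx
      change (x : G) * (e : G) = (e : G) * (x : G)
      rcases hx' with hx' | hx'
      · rw [hx']; exact hE3 _ he
      · rw [hx']; exact inv_comm (hE3 _ he)

/-- one more generator `c`, which commutes with the involution `s` -/
theorem one_more (A : Set G) (hA : ∀ x ∈ A, x⁻¹ ∈ A) {K : Subgroup G} {s : G} (hsK : s ∈ K)
    (hs1 : s ≠ 1) (hs2 : s * s = 1) {σ0 : Equiv.Perm G} (h0 : CycOn A (K : Set G) σ0)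
    (hl : 3 * lost σ0 (K : Set G) s < Nat.card K) {c : G} (hc : c ∈ A) (hcs : c * s = s * c)
    (hcc : c * c ∈ K ∨ ∃ E : Subgroup G, E ≤ K ∧ 6 ≤ Nat.card E ∧ ∀ e ∈ E, c * e = e * c) :
    ∃ (K' : Subgroup G) (σ : Equiv.Perm G) (m : ℕ), K ≤ K' ∧ c ∈ K' ∧ CycOn A (K' : Set G) σ ∧
      m * Nat.card K = Nat.card K' ∧
      lost σ (K' : Set G) s + 4 ≤ m * (lost σ0 (K : Set G) s + 4) ∧
      ∀ t ∈ K, t ≠ 1 → t * t = 1 → t ≠ s →
        lost σ (K' : Set G) t ≤ m * lost σ0 (K : Set G) t := by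
  have hmem : ∀ x ∈ ({c, c⁻¹} : Set G), x = c ∨ x = c⁻¹ := fun x hx => hx
  have hC1 : ({c, c⁻¹} : Set G) ⊆ A := by
    intro x hx
    rcases hmem x hx with h | h
    · rw [h]; exact hc
    · rw [h]; exact hA _ hc
  have hC2 : ∀ x ∈ ({c, c⁻¹} : Set G), x⁻¹ ∈ ({c, c⁻¹} : Set G) := by
    intro x hx
    rcases hmem x hx with h | h
    · rw [h]; exact Or.inr rfl
    · rw [h, inv_inv]; exact Or.inl rfl
  have hC3 : ∀ x ∈ ({c, c⁻¹} : Set G), x * s = s * x := by
    intro x hx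
    rcases hmem x hx with h | h
    · rw [h]; exact hcs
    · rw [h]; exact inv_comm hcs
  have hcK' : c ∈ Subgroup.closure ((K : Set G) ∪ {c, c⁻¹}) :=
    Subgroup.subset_closure (Or.inr (Or.inl rfl))
  have hKK' : K ≤ Subgroup.closure ((K : Set G) ∪ {c, c⁻¹}) :=
    fun x hx => Subgroup.subset_closure (Or.inl hx)
  obtain ⟨σ, m, h1, h2, h3, h4⟩ := free_step A hA hsK hs1 hs2 h0 hl hC1 hC2 hC3
    (fun hs => port_any hKK' hsK hs2 hcK' hcs hcc hs)
  exact ⟨Subgroup.closure ((K : Set G) ∪ {c, c⁻¹}), σ, m, hKK', hcK', h1, h2, h3, h4⟩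

/-- the group `K` has a cycle which loses few edges with labels `a`, `b` -/
def St2 (A : Set G) (a b : G) (q : ℕ) (K : Subgroup G) : Prop :=
  a ∈ K ∧ b ∈ K ∧ ∃ σ : Equiv.Perm G, CycOn A (K : Set G) σ ∧
    (lost σ (K : Set G) a + lost σ (K : Set G) b + 4) * q ≤ 4 * Nat.card K

theorem St2.step {A : Set G} (hA : ∀ x ∈ A, x⁻¹ ∈ A) {a b : G} (ha1 : a ≠ 1) (hb1 : b ≠ 1)
    (hab : a ≠ b) (ha2 : a * a = 1) (hb2 : b * b = 1) {q : ℕ} {K : Subgroup G}
    (h : St2 A a b q K) {c : G} (hc : c ∈ A)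
    (hcc : (6 ≤ q ∧ c * a = a * c ∧ c * b = b * c ∧ 6 ≤ Nat.card (Subgroup.closure {a, b})) ∨
      (12 ≤ q ∧ (c * a = a * c ∨ c * b = b * c) ∧ c * c ∈ K)) :
    ∃ K', K ≤ K' ∧ c ∈ K' ∧ St2 A a b q K' := by
  obtain ⟨haK, hbK, σ, hσ, hq⟩ := h
  have main : ∀ (s t : G), s ∈ K → t ∈ K → s ≠ 1 → t ≠ 1 → s ≠ t → s * s = 1 → t * t = 1 →
      3 * lost σ (K : Set G) s < Nat.card K → c * s = s * c →
      (lost σ (K : Set G) s + lost σ (K : Set G) t + 4) * q ≤ 4 * Nat.card K →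
      (c * c ∈ K ∨ ∃ E : Subgroup G, E ≤ K ∧ 6 ≤ Nat.card E ∧ ∀ e ∈ E, c * e = e * c) →
      ∃ K' : Subgroup G, K ≤ K' ∧ c ∈ K' ∧ ∃ τ : Equiv.Perm G, CycOn A (K' : Set G) τ ∧
        (lost τ (K' : Set G) s + lost τ (K' : Set G) t + 4) * q ≤ 4 * Nat.card K' := by
    intro s t hs ht hs1 ht1 hst hs2 ht2 hl hcs hqst hport
    obtain ⟨K', τ, m, h1, h2, h3, h4, h5, h6⟩ := one_more A hA hs hs1 hs2 hσ hl hc hcs hport
    refine ⟨K', h1, h2, τ, h3, ?_⟩
    have h7 := h6 t ht ht1 ht2 hst.symm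
    calc (lost τ (K' : Set G) s + lost τ (K' : Set G) t + 4) * q
        ≤ (m * (lost σ (K : Set G) s + 4) + m * lost σ (K : Set G) t) * q :=
          Nat.mul_le_mul_right q (by omega)
      _ = m * ((lost σ (K : Set G) s + lost σ (K : Set G) t + 4) * q) := by ring
      _ ≤ m * (4 * Nat.card K) := Nat.mul_le_mul_left m hqst
      _ = 4 * Nat.card K' := by rw [← h4]; ring
  have hq' : (lost σ (K : Set G) b + lost σ (K : Set G) a + 4) * q ≤ 4 * Nat.card K := by
    rw [Nat.add_comm (lost σ (K : Set G) b)]; exact hq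
  have fin1 : (3 * lost σ (K : Set G) a < Nat.card K ∧ c * a = a * c ∧
      (c * c ∈ K ∨ ∃ E : Subgroup G, E ≤ K ∧ 6 ≤ Nat.card E ∧ ∀ e ∈ E, c * e = e * c)) →
      ∃ K', K ≤ K' ∧ c ∈ K' ∧ St2 A a b q K' := by
    rintro ⟨h1, h2, h3⟩
    obtain ⟨K', k1, k2, τ, k3, k4⟩ := main a b haK hbK ha1 hb1 hab ha2 hb2 h1 h2 hq h3
    exact ⟨K', k1, k2, k1 haK, k1 hbK, τ, k3, k4⟩
  have fin2 : (3 * lost σ (K : Set G) b < Nat.card K ∧ c * b = b * c ∧
      (c * c ∈ K ∨ ∃ E : Subgroup G, E ≤ K ∧ 6 ≤ Nat.card E ∧ ∀ e ∈ E, c * e = e * c)) →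
      ∃ K', K ≤ K' ∧ c ∈ K' ∧ St2 A a b q K' := by
    rintro ⟨h1, h2, h3⟩
    obtain ⟨K', k1, k2, τ, k3, k4⟩ := main b a hbK haK hb1 ha1 hab.symm hb2 ha2 h1 h2 hq' h3
    refine ⟨K', k1, k2, k1 haK, k1 hbK, τ, k3, ?_⟩
    rw [Nat.add_comm (lost τ (K' : Set G) a)]
    exact k4
  have hpos : 0 < Nat.card K := Nat.card_pos
  rcases hcc with ⟨hq6, hca, hcb, hE6⟩ | ⟨hq12, hcab, hcc⟩
  · have hE : ∃ E : Subgroup G, E ≤ K ∧ 6 ≤ Nat.card E ∧ ∀ e ∈ E, c * e = e * c := by
      refine ⟨Subgroup.closure {a, b}, ?_, hE6, ?_⟩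
      · rw [Subgroup.closure_le]
        rintro x (rfl | hx)
        · exact haK
        · rw [Set.mem_singleton_iff] at hx
          rw [hx]; exact hbK
      · intro e he
        induction he using Subgroup.closure_induction with
        | mem x hx =>
          rcases hx with rfl | hx
          · exact hca
          · rw [Set.mem_singleton_iff] at hx
            rw [hx]; exact hcb
        | one => simp
        | mul x y _ _ hx hy => rw [← mul_assoc, hx, mul_assoc, hy, mul_assoc]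
        | inv x _ hx => rw [mul_inv_eq_iff_eq_mul, mul_assoc, hx, inv_mul_cancel_left]
    have h6 : (lost σ (K : Set G) a + lost σ (K : Set G) b + 4) * 6 ≤ 4 * Nat.card K :=
      (Nat.mul_le_mul_left _ hq6).trans hq
    by_cases hle : lost σ (K : Set G) a ≤ lost σ (K : Set G) b
    · exact fin1 ⟨by omega, hca, Or.inr hE⟩
    · exact fin2 ⟨by omega, hcb, Or.inr hE⟩
  · have h12 : (lost σ (K : Set G) a + lost σ (K : Set G) b + 4) * 12 ≤ 4 * Nat.card K :=
      (Nat.mul_le_mul_left _ hq12).trans hq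
    rcases hcab with h | h
    · exact fin1 ⟨by omega, h, Or.inl hcc⟩
    · exact fin2 ⟨by omega, h, Or.inl hcc⟩

/-- the same with one label -/
def St1 (A : Set G) (b : G) (q : ℕ) (K : Subgroup G) : Prop :=
  b ∈ K ∧ ∃ σ : Equiv.Perm G, CycOn A (K : Set G) σ ∧
    (lost σ (K : Set G) b + 4) * q ≤ 4 * Nat.card K

theorem St1.step {A : Set G} (hA : ∀ x ∈ A, x⁻¹ ∈ A) {b : G} (hb1 : b ≠ 1) (hb2 : b * b = 1)
    {q : ℕ} (hq12 : 12 ≤ q) {K : Subgroup G} (h : St1 A b q K) {c : G} (hc : c ∈ A)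
    (hcb : c * b = b * c)
    (hcc : c * c ∈ K ∨ ∃ E : Subgroup G, E ≤ K ∧ 6 ≤ Nat.card E ∧ ∀ e ∈ E, c * e = e * c) :
    ∃ K', K ≤ K' ∧ c ∈ K' ∧ St1 A b q K' := by
  obtain ⟨hbK, σ, hσ, hq⟩ := h
  have hpos : 0 < Nat.card K := Nat.card_pos
  have h12 : (lost σ (K : Set G) b + 4) * 12 ≤ 4 * Nat.card K :=
    (Nat.mul_le_mul_left _ hq12).trans hq
  obtain ⟨K', τ, m, h1, h2, h3, h4, h5, h6⟩ :=
    one_more A hA hbK hb1 hb2 hσ (by omega) hc hcb hcc
  refine ⟨K', h1, h2, h1 hbK, τ, h3, ?_⟩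
  calc (lost τ (K' : Set G) b + 4) * q ≤ (m * (lost σ (K : Set G) b + 4)) * q :=
        Nat.mul_le_mul_right q h5
    _ = m * ((lost σ (K : Set G) b + 4) * q) := by ring
    _ ≤ m * (4 * Nat.card K) := Nat.mul_le_mul_left m hq
    _ = 4 * Nat.card K' := by rw [← h4]; ring

theorem order_three {a b : G} (ha2 : a * a = 1) (hb2 : b * b = 1) (hab : a * b ≠ b * a) :
    3 ≤ orderOf (a * b) := by
  by_contra h
  have h0 : 0 < orderOf (a * b) := orderOf_pos _
  apply hab
  have h2 : (a * b) * (a * b) = 1 := by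
    rw [← pow_two]
    rw [← orderOf_dvd_iff_pow_eq_one]
    have : orderOf (a * b) = 1 ∨ orderOf (a * b) = 2 := by omega
    rcases this with h | h
    · rw [h]; exact one_dvd _
    · rw [h]
  have h3 := inv_eq_of_mul_eq_one_left h2
  rw [← h3, mul_inv_rev, inv_eq_of_mul_eq_one_left ha2, inv_eq_of_mul_eq_one_left hb2]

theorem card_dih {a b : G} (ha2 : a * a = 1) (hb2 : b * b = 1) (hab : a * b ≠ b * a) :
    2 * orderOf (a * b) ≤ Nat.card (Subgroup.closure ({a, b} : Set G)) := by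
  set D := Subgroup.closure ({a, b} : Set G) with hD
  set Z := Subgroup.zpowers (a * b) with hZ
  have haD : a ∈ D := Subgroup.subset_closure (by simp)
  have hbD : b ∈ D := Subgroup.subset_closure (by simp)
  have hZD : Z ≤ D := by
    rw [hZ, Subgroup.zpowers_le]
    exact D.mul_mem haD hbD
  have haZ : a ∉ Z := by
    intro h
    obtain ⟨i, hi⟩ := Subgroup.mem_zpowers_iff.1 h
    have h1 : a * (a * b) = (a * b) * a := by
      have h2 : (a * b) ^ i * (a * b) = (a * b) * (a * b) ^ i := by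
        rw [← zpow_add_one, ← zpow_one_add, add_comm]
      rwa [hi] at h2
    apply hab
    have h3 : b = a * b * a := by rw [← h1, ← mul_assoc, ha2, one_mul]
    calc a * b = a * (a * b * a) := by rw [← h3]
      _ = (a * a) * b * a := by group
      _ = b * a := by rw [ha2, one_mul]
  have hlt : Nat.card Z < Nat.card D := by
    apply lt_of_le_of_ne (Subgroup.card_le_of_le hZD)
    intro h
    apply haZ
    rw [Subgroup.eq_of_le_of_card_ge hZD h.ge]
    exact haD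
  obtain ⟨m, hm⟩ := Subgroup.card_dvd_of_le hZD
  have hZc : Nat.card Z = orderOf (a * b) := Nat.card_zpowers _
  rw [hZc] at hm hlt
  rw [hm] at hlt ⊢
  have hm2 : 2 ≤ m := by
    by_contra h
    have : m = 0 ∨ m = 1 := by omega
    rcases this with rfl | rfl
    · omega
    · omega
  calc 2 * orderOf (a * b) ≤ m * orderOf (a * b) := Nat.mul_le_mul_right _ hm2
    _ = orderOf (a * b) * m := Nat.mul_comm _ _

/-- first case -/
theorem case_one {A : Set G} (hA : ∀ x ∈ A, x⁻¹ ∈ A) (hgen : Subgroup.closure A = ⊤) {a b : G}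
    (ha : a ∈ A) (hb : b ∈ A) (ha2 : a * a = 1) (hb2 : b * b = 1) (hab : a * b ≠ b * a)
    (hNa : ∀ c ∈ A, c * a ≠ a * c → c * c = 1 ∧ ∀ d ∈ A, d * a ≠ a * d → c * d = d * c)
    (hNb : ∀ c ∈ A, c * b ≠ b * c → c * c = 1 ∧ ∀ d ∈ A, d * b ≠ b * d → c * d = d * c) :
    ∃ σ : Equiv.Perm G, CycOn A Set.univ σ := by
  have ha1 : a ≠ 1 := by rintro rfl; exact hab (by simp)
  have hb1 : b ≠ 1 := by rintro rfl; exact hab (by simp)
  have hne : a ≠ b := by rintro rfl; exact hab rfl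
  set R : Set G := {c | c ∈ A ∧ c * a ≠ a * c} with hR
  set L : Set G := {c | c ∈ A ∧ c * b ≠ b * c} with hL
  have h6 : 6 ≤ Nat.card (Subgroup.closure ({a, b} : Set G)) := by
    have h1 := order_three ha2 hb2 hab
    have h2 := card_dih ha2 hb2 hab
    omega
  obtain ⟨σ, P, h1, h2⟩ := altSt_two (a := a) (b := b) (L := L) (R := R) ha1 hb1 hne
    (fun x hx => (hNb x hx.1 hx.2).1) (fun x hx y hy => (hNb x hx.1 hx.2).2 y hy.1 hy.2)
    (fun x hx => (hNa x hx.1 hx.2).1) (fun x hx y hy => (hNa x hx.1 hx.2).2 y hy.1 hy.2)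
    ⟨ha, hab⟩ ⟨hb, fun h => hab h.symm⟩
  have hLR : L ∪ R ⊆ A := by
    rintro x (hx | hx)
    · exact hx.1
    · exact hx.1
  have h0 : St2 A a b (Nat.card (Subgroup.closure ({a, b} : Set G)))
      (Subgroup.closure (L ∪ R)) :=
    ⟨Subgroup.subset_closure (Or.inl ⟨ha, hab⟩),
      Subgroup.subset_closure (Or.inr ⟨hb, fun h => hab h.symm⟩), σ, cycOn_mono h1.cyc hLR, h2⟩
  have h3 := chain h0 (A := A) (by
    intro K hK hSt c hc hcK
    refine hSt.step hA ha1 hb1 hne ha2 hb2 hc (Or.inl ⟨h6, ?_, ?_, h6⟩)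
    · by_contra h
      exact hcK (hK (Subgroup.subset_closure (Or.inr ⟨hc, h⟩)))
    · by_contra h
      exact hcK (hK (Subgroup.subset_closure (Or.inl ⟨hc, h⟩)))) hgen
  obtain ⟨_, _, τ, h4, _⟩ := h3
  exact ⟨τ, by simpa using h4⟩

/-- second case -/
theorem case_two {A : Set G} (hA : ∀ x ∈ A, x⁻¹ ∈ A) (hgen : Subgroup.closure A = ⊤) {b : G}
    (hb : b ∈ A) (hb1 : b ≠ 1) (hb2 : b * b = 1) {L : Set G} (hLA : L ⊆ A)
    (hL : ∀ x ∈ L, x * x = 1) (hLc : ∀ x ∈ L, ∀ y ∈ L, x * y = y * x)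
    (h12 : 12 ≤ Nat.card (Subgroup.closure (L ∪ {b})))
    (hrest : ∀ c ∈ A, c ∉ L → c * b = b * c ∧
      (c * c ∈ Subgroup.closure (L ∪ {b}) ∨ ∀ x ∈ L, c * x = x * c)) :
    ∃ σ : Equiv.Perm G, CycOn A Set.univ σ := by
  obtain ⟨a, haL, ha1, hne⟩ : ∃ a ∈ L, a ≠ 1 ∧ a ≠ b := by
    by_contra hno
    push Not at hno
    have hle : Subgroup.closure (L ∪ {b}) ≤ Subgroup.zpowers b := by
      rw [Subgroup.closure_le]
      rintro x (hx | hx)
      · by_cases h1 : x = 1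
        · rw [h1]; exact Subgroup.one_mem _
        · rw [hno x hx h1]; exact Subgroup.mem_zpowers _
      · rw [Set.mem_singleton_iff] at hx
        rw [hx]; exact Subgroup.mem_zpowers _
    have h5 := Subgroup.card_le_of_le hle
    rw [Nat.card_zpowers] at h5
    have h6 : orderOf b ≤ 2 := by
      apply orderOf_le_of_pow_eq_one (by norm_num)
      rw [pow_two]; exact hb2
    omega
  obtain ⟨σ, P, h1, _⟩ := altSt_two (a := a) (b := b) (L := L) (R := {b}) ha1 hb1 hne hL hLc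
    (fun x hx => by rw [Set.mem_singleton_iff] at hx; rw [hx]; exact hb2)
    (fun x hx y hy => by
      rw [Set.mem_singleton_iff] at hx hy
      rw [hx, hy]) haL rfl
  have hLR : L ∪ {b} ⊆ A := by
    rintro x (hx | hx)
    · exact hLA hx
    · rw [Set.mem_singleton_iff] at hx
      rw [hx]; exact hb
  set K0 := Subgroup.closure (L ∪ {b}) with hK0
  have h0 : St1 A b (Nat.card K0) K0 := by
    refine ⟨Subgroup.subset_closure (Or.inr rfl), σ, cycOn_mono h1.cyc hLR, ?_⟩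
    rw [lost_right hb2 h1]
  have h3 := chain h0 (A := A) (by
    intro K hK hSt c hc hcK
    obtain ⟨hcb, hcc⟩ := hrest c hc (fun h => hcK (hK (Subgroup.subset_closure (Or.inl h))))
    refine hSt.step hA hb1 hb2 h12 hc hcb ?_
    rcases hcc with hcc | hcc
    · exact Or.inl (hK hcc)
    · right
      refine ⟨K0, hK, by omega, ?_⟩
      intro e he
      induction he using Subgroup.closure_induction with
      | mem x hx =>
        rcases hx with hx | hx
        · exact hcc x hx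
        · rw [Set.mem_singleton_iff] at hx
          rw [hx]; exact hcb
      | one => simp
      | mul x y _ _ hx hy => rw [← mul_assoc, hx, mul_assoc, hy, mul_assoc]
      | inv x _ hx => rw [mul_inv_eq_iff_eq_mul, mul_assoc, hx, inv_mul_cancel_left]) hgen
  obtain ⟨_, τ, h4, _⟩ := h3
  exact ⟨τ, by simpa using h4⟩

/-- third case -/
theorem case_three {A : Set G} (hA : ∀ x ∈ A, x⁻¹ ∈ A) (hgen : Subgroup.closure A = ⊤) {a b : G}
    (ha : a ∈ A) (hb : b ∈ A) (ha2 : a * a = 1) (hb2 : b * b = 1) (hord : 6 ≤ orderOf (a * b))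
    (hrest : ∀ c ∈ A, (c * a = a * c ∧ c * b = b * c) ∨
      (c * c ∈ Subgroup.closure ({a, b} : Set G) ∧ (c * a = a * c ∨ c * b = b * c))) :
    ∃ σ : Equiv.Perm G, CycOn A Set.univ σ := by
  have hab : a * b ≠ b * a := by
    intro h
    have h1 : orderOf (a * b) ≤ 2 := by
      apply orderOf_le_of_pow_eq_one (by norm_num)
      rw [pow_two]
      calc a * b * (a * b) = a * (b * a) * b := by group
        _ = a * (a * b) * b := by rw [← h]
        _ = (a * a) * (b * b) := by group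
        _ = 1 := by rw [ha2, hb2, mul_one]
    omega
  have ha1 : a ≠ 1 := by rintro rfl; exact hab (by simp)
  have hb1 : b ≠ 1 := by rintro rfl; exact hab (by simp)
  have hne : a ≠ b := by rintro rfl; exact hab rfl
  have h12 : 12 ≤ Nat.card (Subgroup.closure ({a, b} : Set G)) := by
    have h2 := card_dih ha2 hb2 hab
    omega
  obtain ⟨σ, P, h1, h2⟩ := altSt_base ha1 hb1 hne ha2 hb2
  have hset : ({a, b} : Set G) = {a} ∪ {b} := rfl
  have hLR : ({a} ∪ {b} : Set G) ⊆ A := by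
    rintro x (hx | hx)
    · rw [Set.mem_singleton_iff] at hx
      rw [hx]; exact ha
    · rw [Set.mem_singleton_iff] at hx
      rw [hx]; exact hb
  have h0 : St2 A a b (Nat.card (Subgroup.closure ({a, b} : Set G)))
      (Subgroup.closure ({a} ∪ {b})) :=
    ⟨Subgroup.subset_closure (Or.inl rfl), Subgroup.subset_closure (Or.inr rfl), σ,
      cycOn_mono h1.cyc hLR, h2⟩
  have h3 := chain h0 (A := A) (by
    intro K hK hSt c hc hcK
    refine hSt.step hA ha1 hb1 hne ha2 hb2 hc ?_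
    rcases hrest c hc with ⟨h4, h5⟩ | ⟨h4, h5⟩
    · exact Or.inl ⟨by omega, h4, h5, by omega⟩
    · exact Or.inr ⟨h12, h5, hK h4⟩) hgen
  obtain ⟨_, _, τ, h4, _⟩ := h3
  exact ⟨τ, by simpa using h4⟩

/-- fourth case -/
theorem case_four {A : Set G} (hgen : Subgroup.closure A = ⊤) (hne : A.Nonempty)
    (hinv : ∀ x ∈ A, x * x = 1)
    (h3 : ∀ x ∈ A, ∀ y ∈ A, ∀ z ∈ A, x * y = y * x ∨ y * z = z * y ∨ x * z = z * x) :
    ∃ σ : Equiv.Perm G, CycOn A Set.univ σ := by
  have hA : ∀ x ∈ A, x⁻¹ ∈ A := by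
    intro x hx
    rw [inv_eq_of_mul_eq_one_left (hinv x hx)]
    exact hx
  by_cases hcomm : ∃ a ∈ A, ∃ b ∈ A, a * b ≠ b * a
  · obtain ⟨a, ha, b, hb, hab⟩ := hcomm
    refine case_one hA hgen ha hb (hinv a ha) (hinv b hb) hab ?_ ?_
    · intro c hc hca
      refine ⟨hinv c hc, fun d hd hda => ?_⟩
      rcases h3 c hc a ha d hd with h | h | h
      · exact absurd h hca
      · exact absurd h.symm hda
      · exact h
    · intro c hc hcb
      refine ⟨hinv c hc, fun d hd hdb => ?_⟩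
      rcases h3 c hc b hb d hd with h | h | h
      · exact absurd h hcb
      · exact absurd h.symm hdb
      · exact h
  · push Not at hcomm
    by_cases htwo : ∃ a ∈ A, ∃ b ∈ A, a ≠ 1 ∧ b ≠ 1 ∧ a ≠ b
    · obtain ⟨a, ha, b, hb, ha1, hb1, hab⟩ := htwo
      obtain ⟨σ, P, h1, _⟩ := altSt_two (a := a) (b := b) (L := A) (R := {b}) ha1 hb1 hab hinv
        (fun x hx y hy => hcomm x hx y hy)
        (fun x hx => by rw [Set.mem_singleton_iff] at hx; rw [hx]; exact hinv b hb)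
        (fun x hx y hy => by
          rw [Set.mem_singleton_iff] at hx hy
          rw [hx, hy]) ha rfl
      have e : A ∪ {b} = A := by
        ext x
        simp only [Set.mem_union, Set.mem_singleton_iff]
        exact ⟨fun h => h.elim id (fun h => h ▸ hb), Or.inl⟩
      have h4 := h1.cyc
      rw [e, hgen] at h4
      exact ⟨σ, by simpa using h4⟩
    · push Not at htwo
      obtain ⟨a, ha, haA⟩ : ∃ a ∈ A, ∀ x ∈ A, x = 1 ∨ x = a := by
        by_cases h : ∃ a ∈ A, a ≠ 1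
        · obtain ⟨a, ha, ha1⟩ := h
          refine ⟨a, ha, fun x hx => ?_⟩
          by_cases hx1 : x = 1
          · exact Or.inl hx1
          · exact Or.inr (htwo x hx a ha hx1 ha1)
        · push Not at h
          obtain ⟨a, ha⟩ := hne
          exact ⟨a, ha, fun x hx => Or.inl (h x hx)⟩
      have htop : Subgroup.zpowers a = ⊤ := by
        rw [eq_top_iff, ← hgen, Subgroup.closure_le]
        intro x hx
        rcases haA x hx with rfl | rfl
        · exact Subgroup.one_mem _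
        · exact Subgroup.mem_zpowers _
      obtain ⟨τ, hτ, _⟩ := cyc_zpowers ha
      rw [htop] at hτ
      exact ⟨τ, by simpa using hτ⟩

end Pool.Agent.E8helper30.HC
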