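import Pool.Agent.E8helper30.HC.Alt

/-!
One generator is added to an alternating cycle.
-/

namespace Pool.Agent.E8helper30.HC

open Pool.Agent.R759.HC

attribute [local instance] Classical.propDecidable

set_option linter.unusedSectionVars false

variable {G : Type*} [Group G]

/-- conjugation by `d` fixes or inverts the elements of `L`, so it preserves `⟨L⟩` -/
theorem conj_mem {L : Set G} {d : G} (hc : ∀ s ∈ L, d⁻¹ * s * d = s ∨ d⁻¹ * s * d = s⁻¹) :
    ∀ v ∈ Subgroup.closure L, d⁻¹ * v * d ∈ Subgroup.closure L := by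
  intro v hv
  have h := conj_closure (B := L) (g := d⁻¹) (by
    intro s hs
    rw [inv_inv]
    rcases hc s hs with h | h
    · rw [h]; exact Subgroup.subset_closure hs
    · rw [h]; exact Subgroup.inv_mem _ (Subgroup.subset_closure hs)) v hv
  rwa [inv_inv] at h

theorem conj_inv_form {L : Set G} {c : G}
    (hc : ∀ s ∈ L, c⁻¹ * s * c = s ∨ c⁻¹ * s * c = s⁻¹) :
    ∀ s ∈ L, c⁻¹⁻¹ * s * c⁻¹ = s ∨ c⁻¹⁻¹ * s * c⁻¹ = s⁻¹ := by
  intro s hs
  rcases hc s hs with h | h
  · left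
    calc c⁻¹⁻¹ * s * c⁻¹ = c * (c⁻¹ * s * c) * c⁻¹ := by rw [h, inv_inv]
      _ = s := by group
  · right
    have h' := congrArg (fun x => x⁻¹) h
    simp only [mul_inv_rev, inv_inv] at h'
    -- h' : c⁻¹ * (s⁻¹ * c) = s
    calc c⁻¹⁻¹ * s * c⁻¹ = c * (c⁻¹ * (s⁻¹ * c)) * c⁻¹ := by rw [h', inv_inv]
      _ = s⁻¹ := by group

variable [Finite G]

/-- the states of the growing process -/
def Inv (a b : G) (q : ℕ) (L R : Set G) (c : G) (σ0 : Equiv.Perm G) (P0 : Set G) (U : Set G) :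
    Prop :=
  (∀ x ∈ U, ∀ h ∈ Subgroup.closure (L ∪ R), x * h ∈ U) ∧ (1 : G) ∈ U ∧
  (∀ x ∈ U, x ∈ Subgroup.closure ((L ∪ {c, c⁻¹}) ∪ R)) ∧
  ∃ (σ : Equiv.Perm G) (P : Set G), AltOn (L ∪ {c, c⁻¹}) R U σ P ∧
    (lost σ U a + lost σ U b + 4) * q ≤ 4 * U.ncard ∧
    (∀ x ∈ U, (x * c ∉ U ∧ x * c⁻¹ ∉ U) → ∀ v ∈ Subgroup.closure L,
      (x * v)⁻¹ * mate σ P (x * v) ∈ labels σ0 P0 (Subgroup.closure (L ∪ R) : Set G)) ∧
    (∀ x ∈ U, (x * c ∉ U ∨ x * c⁻¹ ∉ U) → ∃ p q, ∀ v ∈ Subgroup.closure L,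
      x * v ≠ p → x * v ≠ q →
      (x * v)⁻¹ * mate σ P (x * v) ∈ labels σ0 P0 (Subgroup.closure (L ∪ R) : Set G))

theorem alt_step {a b : G} (ha1 : a ≠ 1) (hb1 : b ≠ 1) (hab : a ≠ b) (ha2 : a * a = 1)
    (hb2 : b * b = 1) (q : ℕ) {L R : Set G} (hL : ∀ x ∈ L, x⁻¹ ∈ L) (hR : ∀ x ∈ R, x⁻¹ ∈ R)
    {σ0 : Equiv.Perm G} {P0 : Set G}
    (h0 : AltOn L R (Subgroup.closure (L ∪ R) : Set G) σ0 P0)
    (hq : (lost σ0 (Subgroup.closure (L ∪ R) : Set G) a +
      lost σ0 (Subgroup.closure (L ∪ R) : Set G) b + 4) * q ≤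
        4 * (Subgroup.closure (L ∪ R) : Set G).ncard) {c : G}
    (hc : ∀ s ∈ L, c⁻¹ * s * c = s ∨ c⁻¹ * s * c = s⁻¹)
    (h3 : c * c ∈ Subgroup.closure L ∨ 3 ≤ Nat.card (Subgroup.closure L)) :
    ∃ (σ : Equiv.Perm G) (P : Set G),
      AltOn (L ∪ {c, c⁻¹}) R (Subgroup.closure ((L ∪ {c, c⁻¹}) ∪ R) : Set G) σ P ∧
      (lost σ (Subgroup.closure ((L ∪ {c, c⁻¹}) ∪ R) : Set G) a +
        lost σ (Subgroup.closure ((L ∪ {c, c⁻¹}) ∪ R) : Set G) b + 4) * q ≤
        4 * (Subgroup.closure ((L ∪ {c, c⁻¹}) ∪ R) : Set G).ncard := by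
  set H := Subgroup.closure (L ∪ R) with hH
  set V := Subgroup.closure L with hV
  set H' := Subgroup.closure ((L ∪ {c, c⁻¹}) ∪ R) with hH'
  set S := labels σ0 P0 (H : Set G) with hS
  have hVH : V ≤ H := Subgroup.closure_mono Set.subset_union_left
  have hHH' : H ≤ H' := by
    apply Subgroup.closure_mono
    exact Set.union_subset_union_left R Set.subset_union_left
  have hSL : S ⊆ L := labels_sub hL h0
  have hSV : ∀ s ∈ S, s ∈ V := fun s hs => Subgroup.subset_closure (hSL hs)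
  -- the initial state
  have hinit : Inv a b q L R c σ0 P0 (H : Set G) := by
    refine ⟨fun x hx h hh => H.mul_mem hx hh, H.one_mem, fun x hx => hHH' hx, σ0, P0,
      h0.mono Set.subset_union_left, hq, ?_, ?_⟩
    · intro x hx _ v hv
      exact mate_label h0 (H.mul_mem hx (hVH hv))
    · intro x hx _
      refine ⟨1, 1, fun v hv _ _ => ?_⟩
      exact mate_label h0 (H.mul_mem hx (hVH hv))
  -- a maximal state
  obtain ⟨U, hU, hmax⟩ := Set.exists_max_image {U : Set G | Inv a b q L R c σ0 P0 U} Set.ncard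
    (Set.toFinite _) ⟨_, hinit⟩
  obtain ⟨uH, u1, uH', σ, P, hσ, hqU, i1, i2⟩ := id hU
  suffices hclosed : ∀ d : G, (d = c ∨ d = c⁻¹) → ∀ x ∈ U, x * d ∈ U by
    have hall : U = (H' : Set G) := by
      apply Set.Subset.antisymm
      · exact fun x hx => uH' x hx
      · intro g hg
        have hgen : ∀ x ∈ U, ∀ y ∈ (L ∪ {c, c⁻¹}) ∪ R, x * y ∈ U ∧ x * y⁻¹ ∈ U := by
          intro x hx y hy
          rcases hy with (hy | hy | hy) | hy
          · have : y ∈ H := Subgroup.subset_closure (Or.inl hy)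
            exact ⟨uH x hx y this, uH x hx _ (H.inv_mem this)⟩
          · subst hy
            exact ⟨hclosed _ (Or.inl rfl) x hx, hclosed _ (Or.inr rfl) x hx⟩
          · rw [Set.mem_singleton_iff] at hy
            subst hy
            rw [inv_inv]
            exact ⟨hclosed _ (Or.inr rfl) x hx, hclosed _ (Or.inl rfl) x hx⟩
          · have : y ∈ H := Subgroup.subset_closure (Or.inr hy)
            exact ⟨uH x hx y this, uH x hx _ (H.inv_mem this)⟩
        have hg' : g ∈ Subgroup.closure ((L ∪ {c, c⁻¹}) ∪ R) := hg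
        induction hg' using Subgroup.closure_induction_right with
        | one => exact u1
        | mul_right x hx y hy ih => exact (hgen x (ih hx) y hy).1
        | mul_inv_cancel x hx y hy ih => exact (hgen x (ih hx) y hy).2
    rw [hall] at hσ hqU
    exact ⟨σ, P, hσ, hqU⟩
  intro d hd x hx
  by_contra hxd
  -- facts on `d`
  have hcd : ∀ s ∈ L, d⁻¹ * s * d = s ∨ d⁻¹ * s * d = s⁻¹ := by
    rcases hd with rfl | rfl
    · exact hc
    · exact conj_inv_form hc
  have hcd' : ∀ s ∈ L, d⁻¹⁻¹ * s * d⁻¹ = s ∨ d⁻¹⁻¹ * s * d⁻¹ = s⁻¹ := conj_inv_form hcd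
  have hVd : ∀ v ∈ V, d⁻¹ * v * d ∈ V := conj_mem hcd
  have hVd' : ∀ v ∈ V, d * v * d⁻¹ ∈ V := by
    intro v hv
    have := conj_mem hcd' v hv
    rwa [inv_inv] at this
  have hand : ∀ (W : Set G) (y : G), (y * c ∉ W ∧ y * c⁻¹ ∉ W) ↔ (y * d ∉ W ∧ y * d⁻¹ ∉ W) := by
    intro W y
    rcases hd with rfl | rfl
    · exact Iff.rfl
    · rw [inv_inv]; exact and_comm
  have hor : ∀ (W : Set G) (y : G), (y * c ∉ W ∨ y * c⁻¹ ∉ W) ↔ (y * d ∉ W ∨ y * d⁻¹ ∉ W) := by
    intro W y
    rcases hd with rfl | rfl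
    · exact Iff.rfl
    · rw [inv_inv]; exact or_comm
  have hdL : d ∈ L ∪ {c, c⁻¹} := by
    right
    rcases hd with rfl | rfl
    · exact Or.inl rfl
    · exact Or.inr rfl
  have hdL' : d⁻¹ ∈ L ∪ {c, c⁻¹} := by
    right
    rcases hd with rfl | rfl
    · exact Or.inr rfl
    · rw [inv_inv]; exact Or.inl rfl
  -- a good vertex
  obtain ⟨v0, hv0, hgood⟩ : ∃ v ∈ V, (x * v)⁻¹ * mate σ P (x * v) ∈ S := by
    rcases h3 with h3 | h3
    · have hdd : d * d ∈ V := by
        rcases hd with rfl | rfl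
        · exact h3
        · have := V.inv_mem h3
          rwa [mul_inv_rev] at this
      have hxd' : x * d⁻¹ ∉ U := by
        intro h
        apply hxd
        have := uH _ h _ (hVH hdd)
        have e : x * d⁻¹ * (d * d) = x * d := by group
        rwa [e] at this
      exact ⟨1, V.one_mem, i1 x hx ((hand U x).2 ⟨hxd, hxd'⟩) 1 V.one_mem⟩
    · obtain ⟨p, q, hpq⟩ := i2 x hx ((hor U x).2 (Or.inl hxd))
      obtain ⟨v, hv, hvp, hvq⟩ : ∃ v ∈ V, x * v ≠ p ∧ x * v ≠ q := by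
        by_contra hno
        push Not at hno
        have hsub : (V : Set G) ⊆ {x⁻¹ * p, x⁻¹ * q} := by
          intro v hv
          by_cases h : x * v = p
          · left; rw [← h, inv_mul_cancel_left]
          · right
            rw [Set.mem_singleton_iff, ← hno v hv h, inv_mul_cancel_left]
        have h4 := Set.ncard_le_ncard hsub (Set.toFinite _)
        have h5 : ({x⁻¹ * p, x⁻¹ * q} : Set G).ncard ≤ 2 := by
          have h7 := Set.ncard_insert_le (x⁻¹ * p) ({x⁻¹ * q} : Set G)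
          rw [Set.ncard_singleton] at h7
          exact h7
        have h6 : (V : Set G).ncard = Nat.card V := rfl
        omega
      exact ⟨v, hv, hpq v hv hvp hvq⟩
  -- the starting point of the `L`-edge
  obtain ⟨z, hz, hzP, hzS, hxz⟩ : ∃ z ∈ U, z ∈ P ∧ z⁻¹ * σ z ∈ S ∧ x⁻¹ * z ∈ V := by
    have hw : x * v0 ∈ U := uH x hx v0 (hVH hv0)
    by_cases hP : x * v0 ∈ P
    · refine ⟨x * v0, hw, hP, ?_, ?_⟩
      · have := hgood
        unfold mate at this
        rwa [if_pos hP] at this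
      · rw [inv_mul_cancel_left]; exact hv0
    · have hg := hgood
      unfold mate at hg
      rw [if_neg hP] at hg
      have hm := inv_maps hσ.cyc _ hw
      refine ⟨σ⁻¹ (x * v0), hm, ?_, ?_, ?_⟩
      · by_contra hn
        have := (hσ.alt _ hm).2 hn
        rw [pinv1] at this
        exact hP this
      · rw [pinv1]
        have := labels_symm _ hg
        rwa [mul_inv_rev, inv_inv] at this
      · have h1 := V.mul_mem hv0 (hSV _ hg)
        have e : v0 * ((x * v0)⁻¹ * σ⁻¹ (x * v0)) = x⁻¹ * σ⁻¹ (x * v0) := by group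
        rwa [e] at h1
  obtain ⟨s, hs⟩ : ∃ s, s = z⁻¹ * σ z := ⟨_, rfl⟩
  rw [← hs] at hzS
  have hσz : σ z = z * s := by rw [hs, mul_inv_cancel_left]
  have hzd : z * d ∉ U := by
    intro h
    apply hxd
    have h1 := uH _ h _ (hVH (V.inv_mem (hVd _ hxz)))
    have e : z * d * (d⁻¹ * (x⁻¹ * z) * d)⁻¹ = x * d := by group
    rwa [e] at h1
  obtain ⟨t, ht⟩ : ∃ t, t = d⁻¹ * s⁻¹ * d := ⟨_, rfl⟩
  have htS : t ∈ S := by
    rw [ht]
    rcases hcd s⁻¹ (hL _ (hSL hzS)) with h | h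
    · rw [h]; exact labels_symm _ hzS
    · rw [h, inv_inv]; exact hzS
  have htV : t ∈ V := hSV _ htS
  obtain ⟨y, hy⟩ : ∃ y, y = z * s * d := ⟨_, rfl⟩
  have hyt : y * t = z * d := by
    rw [hy, ht]; group
  obtain ⟨σ2, P2, h2, hyP, hσy, hg2, hlost2⟩ := place hL hR h0 htS y
  rw [hyt] at hσy
  have h2' : AltOn (L ∪ {c, c⁻¹}) R {x | y⁻¹ * x ∈ H} σ2 P2 := h2.mono Set.subset_union_left
  have hKc : ∀ w : G, y⁻¹ * w ∈ H → ∀ h ∈ H, y⁻¹ * (w * h) ∈ H := by
    intro w hw h hh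
    rw [← mul_assoc]
    exact H.mul_mem hw hh
  have hdis : ∀ w, w ∈ U → w ∉ {x | y⁻¹ * x ∈ H} := by
    intro w hw hw'
    have hw'' : y⁻¹ * w ∈ H := hw'
    apply hzd
    have h1 := uH w hw _ (H.mul_mem (H.inv_mem hw'') (hVH htV))
    have e : w * ((y⁻¹ * w)⁻¹ * t) = y * t := by group
    rwa [e, hyt] at h1
  have hyK : y ∈ {x | y⁻¹ * x ∈ H} := by
    change y⁻¹ * y ∈ H
    rw [inv_mul_cancel]; exact H.one_mem
  obtain ⟨σ', P', hσ', m1, m2, hlost⟩ := hσ.merge h2' hdis hz hzP hyK hyP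
    (by
      rw [hσy, inv_mul_cancel_left]
      exact hdL)
    (by
      rw [hσz, hy]
      have e : (z * s * d)⁻¹ * (z * s) = d⁻¹ := by group
      rw [e]
      exact hdL')
  rw [hσz] at m1
  rw [hσy] at m2
  -- geometry of the new coset
  have hzdK : y⁻¹ * (z * d) ∈ H := by
    rw [← hyt, inv_mul_cancel_left]
    exact hVH htV
  have F1 : ∀ w v, v ∈ V → w * v = z → y⁻¹ * (w * d) ∈ H := by
    intro w v hv hwv
    have h1 := hKc _ hzdK _ (hVH (V.inv_mem (hVd v hv)))
    have e : z * d * (d⁻¹ * v * d)⁻¹ = w * d := by rw [← hwv]; group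
    rwa [e] at h1
  have F1' : ∀ w v, v ∈ V → w * v = z * s → y⁻¹ * (w * d) ∈ H := by
    intro w v hv hwv
    refine F1 w (v * s⁻¹) (V.mul_mem hv (V.inv_mem (hSV _ hzS))) ?_
    rw [← mul_assoc, hwv]; group
  have F2 : ∀ w v, v ∈ V → w * v = z * d → w * d⁻¹ ∈ U := by
    intro w v hv hwv
    have h1 := uH z hz _ (hVH (V.inv_mem (hVd' v hv)))
    have e : z * (d * v * d⁻¹)⁻¹ = w * d⁻¹ := by
      have e1 : w = z * d * v⁻¹ := by rw [← hwv]; group
      rw [e1]; group
    rwa [e] at h1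
  have F2' : ∀ w v, v ∈ V → w * v = y → w * d⁻¹ ∈ U := by
    intro w v hv hwv
    refine F2 w (v * t) (V.mul_mem hv htV) ?_
    rw [← mul_assoc, hwv, hyt]
  -- the new state
  have hnew : Inv a b q L R c σ0 P0 (U ∪ {x | y⁻¹ * x ∈ H}) := by
    refine ⟨?_, Or.inl u1, ?_, σ', P', hσ', ?_, ?_, ?_⟩
    · rintro w (hw | hw) h hh
      · exact Or.inl (uH w hw h hh)
      · exact Or.inr (hKc w hw h hh)
    · rintro w (hw | hw)
      · exact uH' w hw
      · have hzH : z ∈ H' := uH' z hz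
        have hdH : d ∈ H' := Subgroup.subset_closure (Or.inl hdL)
        have hsH : s ∈ H' := hHH' (hVH (hSV _ hzS))
        have hyH : y ∈ H' := by
          rw [hy]
          exact H'.mul_mem (H'.mul_mem hzH hsH) hdH
        have h1 := H'.mul_mem hyH (hHH' hw)
        rwa [mul_inv_cancel_left] at h1
    · have l1 := hlost a ha1 ha2
      have l2 := hlost b hb1 hb2
      rw [hlost2] at l1 l2
      have hcard : (U ∪ {x | y⁻¹ * x ∈ H}).ncard = U.ncard + (H : Set G).ncard := by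
        rw [Set.ncard_union_eq (Set.disjoint_left.2 hdis) (Set.toFinite _) (Set.toFinite _)]
        congr 1
        have e : {x | y⁻¹ * x ∈ H} = (fun x => y * x) '' (H : Set G) := by
          ext x
          constructor
          · intro hx
            exact ⟨y⁻¹ * x, hx, by simp⟩
          · rintro ⟨w, hw, rfl⟩
            change y⁻¹ * (y * w) ∈ H
            rw [inv_mul_cancel_left]
            exact hw
        rw [e]
        exact Set.ncard_image_of_injective _ (mul_right_injective y)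
      have hle : lost σ' (U ∪ {x | y⁻¹ * x ∈ H}) a + lost σ' (U ∪ {x | y⁻¹ * x ∈ H}) b + 4 ≤
          (lost σ U a + lost σ U b + 4) + (lost σ0 (H : Set G) a + lost σ0 (H : Set G) b + 4) := by
        have e1 : ∀ g : G, (if g = a then 2 else 0) + (if g = b then 2 else 0) ≤ 2 := by
          intro g
          by_cases h1 : g = a
          · subst h1
            rw [if_pos rfl, if_neg hab]
          · rw [if_neg h1]
            split_ifs <;> omega
        have e2 := e1 (z⁻¹ * σ z)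
        have e3 := e1 (y⁻¹ * σ2 y)
        omega
      rw [hcard]
      calc (lost σ' (U ∪ {x | y⁻¹ * x ∈ H}) a + lost σ' (U ∪ {x | y⁻¹ * x ∈ H}) b + 4) * q
          ≤ ((lost σ U a + lost σ U b + 4) +
            (lost σ0 (H : Set G) a + lost σ0 (H : Set G) b + 4)) * q := Nat.mul_le_mul_right q hle
        _ = (lost σ U a + lost σ U b + 4) * q +
            (lost σ0 (H : Set G) a + lost σ0 (H : Set G) b + 4) * q := by ring
        _ ≤ 4 * U.ncard + 4 * (H : Set G).ncard := Nat.add_le_add hqU hq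
        _ = 4 * (U.ncard + (H : Set G).ncard) := by ring
    · intro w hw hwc v hv
      rw [hand] at hwc
      obtain ⟨hw1, hw2⟩ := hwc
      rcases hw with hw | hw
      · rw [m1 (w * v) (uH w hw v (hVH hv))
          (fun h => hw1 (Or.inr (F1 w v hv h))) (fun h => hw1 (Or.inr (F1' w v hv h)))]
        exact i1 w hw ((hand U w).2 ⟨fun h => hw1 (Or.inl h), fun h => hw2 (Or.inl h)⟩) v hv
      · rw [m2 (w * v) (hKc w hw v (hVH hv))
          (fun h => hw2 (Or.inl (F2' w v hv h))) (fun h => hw2 (Or.inl (F2 w v hv h)))]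
        exact hg2 _ (hKc w hw v (hVH hv))
    · intro w hw hwc
      rw [hor] at hwc
      rcases hw with hw | hw
      · by_cases hzw : ∃ v ∈ V, w * v = z
        · obtain ⟨v1, hv1, hwv1⟩ := hzw
          have hwd : y⁻¹ * (w * d) ∈ H := F1 w v1 hv1 hwv1
          have hwdU : w * d ∉ U := fun h => hdis _ h hwd
          have hwd' : w * d⁻¹ ∉ U := by
            rcases hwc with h | h
            · exact absurd (Or.inr hwd) h
            · exact fun h' => h (Or.inl h')
          refine ⟨z, z * s, fun v hv hvz hvs => ?_⟩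
          rw [m1 (w * v) (uH w hw v (hVH hv)) hvz hvs]
          exact i1 w hw ((hand U w).2 ⟨hwdU, hwd'⟩) v hv
        · push Not at hzw
          have hwc' : w * c ∉ U ∨ w * c⁻¹ ∉ U := by
            rw [hor]
            rcases hwc with h | h
            · exact Or.inl fun h' => h (Or.inl h')
            · exact Or.inr fun h' => h (Or.inl h')
          obtain ⟨p, q, hpq⟩ := i2 w hw hwc'
          refine ⟨p, q, fun v hv hvp hvq => ?_⟩
          rw [m1 (w * v) (uH w hw v (hVH hv)) (hzw v hv) ?_]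
          · exact hpq v hv hvp hvq
          · intro h
            apply hzw (v * s⁻¹) (V.mul_mem hv (V.inv_mem (hSV _ hzS)))
            rw [← mul_assoc, h]; group
      · refine ⟨y, z * d, fun v hv hvy hvz => ?_⟩
        rw [m2 (w * v) (hKc w hw v (hVH hv)) hvy hvz]
        exact hg2 _ (hKc w hw v (hVH hv))
  have hlt : U.ncard < (U ∪ {x | y⁻¹ * x ∈ H}).ncard := by
    apply Set.ncard_lt_ncard _ (Set.toFinite _)
    refine ⟨Set.subset_union_left, fun h => ?_⟩
    exact hdis y (h (Or.inr hyK)) hyK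
  have := hmax _ hnew
  omega

end Pool.Agent.E8helper30.HC
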